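import Pool.Agent.Work.MP_2738db_nt_X.Interface
import Pool.Agent.Work.MP_2738db_nt_T_helper42.Exp

/-! Block TWA (helper40): powers of `2` dividing `c ^ k ± b ^ n`. -/

set_option autoImplicit false

namespace Pool.Agent.Work.MP_2738db_nt_X.helper40

open Real Pool.Agent.Work.MP_2738db_nt_T_helper42

theorem stmt_Twa : Stmt_Twa := by
  refine ⟨12 * 10 ^ 8, by norm_num, ?_⟩
  intro b c n k v U lam hb hc hbo hco hbc hn hk hU hbU hcU hlam hnl hkl hdv
  have hb' : Odd b := by
    rw [← Nat.not_even_iff_odd, even_iff_two_dvd]; exact hbo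
  have hc' : Odd c := by
    rw [← Nat.not_even_iff_odd, even_iff_two_dvd]; exact hco
  have hb3 : 3 ≤ b := by obtain ⟨r, hr⟩ := hb'; omega
  have hc3 : 3 ≤ c := by obtain ⟨r, hr⟩ := hc'; omega
  have hdv' : (2 : ℤ) ^ v ∣ (c : ℤ) ^ (2 * k) - (b : ℤ) ^ (2 * n) := by
    have h3 : (c : ℤ) ^ (2 * k) - (b : ℤ) ^ (2 * n) =
        ((c : ℤ) ^ k - (b : ℤ) ^ n) * ((c : ℤ) ^ k + (b : ℤ) ^ n) := by ring
    rw [h3]
    rcases hdv with h | h
    · exact h.mul_right _
    · exact h.mul_left _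
  set N := max b c with hN
  set E := max n k with hE
  have hE1 : 1 ≤ E := le_trans hn (le_max_left _ _)
  have hEr : (1 : ℝ) ≤ E := by exact_mod_cast hE1
  have hNU : log (N : ℝ) ≤ U := by
    rcases le_total b c with h | h
    · rw [hN, max_eq_right h]; exact hcU
    · rw [hN, max_eq_left h]; exact hbU
  have hEl : log (E : ℝ) ≤ lam := by
    rcases le_total n k with h | h
    · rw [hE, max_eq_right h]; exact hkl
    · rw [hE, max_eq_left h]; exact hnl
  have h1 : 1 + log (E + 1 : ℝ) ≤ 2 * (1 + lam) := by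
    have h2 : log (E + 1 : ℝ) ≤ log (2 * E : ℝ) := log_le_log (by linarith) (by linarith)
    rw [log_mul (by norm_num) (by linarith)] at h2
    have := log_two_lt_d9
    linarith
  have hN3 : 3 ≤ N := le_trans hb3 (le_max_left _ _)
  have h2 := lemW hN3 hc' hb' hbc.symm (by omega) (by omega) (le_max_right _ _)
    (le_max_left _ _) (by omega) hk hn (le_max_right n k) (le_max_left n k) h1 hdv'
  have hh := one_le_log hN3
  calc (v : ℝ) ≤ 3 * 10 ^ 8 * (log N) ^ 2 * (2 * (1 + lam)) ^ 2 := h2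
    _ ≤ 3 * 10 ^ 8 * U ^ 2 * (2 * (1 + lam)) ^ 2 := by gcongr
    _ = _ := by ring

end Pool.Agent.Work.MP_2738db_nt_X.helper40
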