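import Pool.Agent.Work.MP_2738db_nt_X_helper40.Main
import Pool.Agent.Work.MP_2738db_nt_X_helper40.TWA
import Pool.Agent.Work.MP_2738db_nt_X_helper37.SMQ
import Pool.Agent.Work.MP_2738db_nt_X_helper46.DPQ
import Pool.Agent.Work.MP_2738db_nt_X_helper79.SUX
import Pool.Agent.Work.MP_2738db_nt_Z_helper55.MOM
import Pool.Agent.Work.MP_2738db_nt_U_helper15.LOC
import Pool.Agent.Work.MP_2738db_nt_U_helper85.STEP
import Pool.Agent.Work.MP_2738db_nt_U_helper93.ARL

set_option autoImplicit false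

namespace Pool.Agent.Work.MP_2738db_nt_X.helper40

theorem final_X0 : Stmt_X0 :=
  stmt_X0 Pool.Agent.Work.MP_2738db_nt_U.helper15.stmt_Loc
    Pool.Agent.Work.MP_2738db_nt_Z.helper55.stmt_Mom
    (Pool.Agent.Work.MP_2738db_nt_X.helper46.stmt_Dpq
      Pool.Agent.Work.MP_2738db_nt_X.helper79.stmt_Sux
      Pool.Agent.Work.MP_2738db_nt_X.helper37.stmt_SMQ)

theorem final_XA : Stmt_XA :=
  stmt_XA final_X0
    (Pool.Agent.Work.MP_2738db_nt_U.helper85.stmt_Step
      Pool.Agent.Work.MP_2738db_nt_U.helper93.stmt_ARL)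
    stmt_Twa


end Pool.Agent.Work.MP_2738db_nt_X.helper40
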