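import Pool.Agent.Work.MP_2738db_nt_X_helper40.Flag
import Pool.Agent.Work.MP_2738db_nt_X_helper40.Final
import Pool.Agent.Work.MP_2738db_nt_A_helper43.VAL
import Pool.Agent.Work.MP_2738db_nt_A_helper43.ZER
import Pool.Agent.Work.MP_2738db_nt_A_helper44.TLK
import Pool.Agent.Work.MP_2738db_nt_A_helper59.CNT
import Pool.Agent.Work.MP_2738db_nt_A_helper59.IDL
import Pool.Agent.Work.MP_2738db_nt_A_helper59.MIN
import Pool.Agent.Work.MP_2738db_nt_A_helper59.WWW
import Pool.Agent.Work.MP_2738db_nt_A_helper76.COR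
import Pool.Agent.Work.MP_2738db_nt_A_helper83.TLG
import Pool.Agent.Work.MP_2738db_nt_A_helper87.DEC
import Pool.Agent.Work.MP_2738db_nt_A_helper87.NRM
import Pool.Agent.Work.MP_2738db_nt_A_helper96.FLD
import Pool.Agent.Work.MP_2738db_nt_A_helper96.PIG

set_option autoImplicit false

namespace Pool.Agent.Work.MP_2738db_nt_X.helper40

theorem final_W : MP_2738db_nt_A.Stmt_W :=
  MP_2738db_nt_A.helper59.W.stmt_W MP_2738db_nt_A.helper96.stmt_FLD
    (MP_2738db_nt_A.helper87.stmt_DEC MP_2738db_nt_A.helper59.stmt_Idl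
      (MP_2738db_nt_A.helper96.stmt_PIG MP_2738db_nt_A.helper59.stmt_Min
        MP_2738db_nt_A.helper59.stmt_Cnt))
    (MP_2738db_nt_A.helper83.stmt_TLG
      (MP_2738db_nt_A.helper44.stmt_Tlk
        (MP_2738db_nt_A.helper76.stmt_Cor MP_2738db_nt_A.helper43.stmt_Val
          MP_2738db_nt_A.helper43.stmt_Zer MP_2738db_nt_A.helper87.stmt_NRM))
      MP_2738db_nt_A.helper87.stmt_NRM)

theorem final_FB : Stmt_FB :=
  stmt_FB (stmt_F1 final_X0
    (Pool.Agent.Work.MP_2738db_nt_U.helper85.stmt_Step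
      Pool.Agent.Work.MP_2738db_nt_U.helper93.stmt_ARL)
    stmt_Twa final_W)

end Pool.Agent.Work.MP_2738db_nt_X.helper40
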