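import Pool.Agent.Work.MP_2738db_nt_X_helper40.Main
import Pool.Agent.Work.MP_2738db_nt_A.Interface

/-! The flagship: the sieve core, two logarithms and the bound for the exponents (Theorem W). -/

set_option autoImplicit false

namespace Pool.Agent.Work.MP_2738db_nt_X.helper40

open Finset Filter
open Pool.Agent.Work.MP_2738db_nt_U.helper40 (ev_pow ev_log ev_exp omega_le)

/-- the flagship for one base `b` -/
def Stmt_F1 : Prop :=
  ∀ ε : ℝ, 0 < ε → ∃ κ : ℝ, 0 < κ ∧ ∀ A : ℝ, ∃ X₀ : ℝ, ∀ X N b g r : ℕ, X₀ ≤ X →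
    Real.exp (Real.log (Real.log X) ^ (1 + ε)) ≤ N → 2 ≤ b → b ≤ X → 1 ≤ g → g * N + r ≤ X →
    ({x : ℕ | 1 ≤ x ∧ x ≤ N ∧ Nat.Coprime b (g * x + r) ∧ ∃ a m n k : ℕ, 1 ≤ a ∧ 2 ≤ m ∧
        1 ≤ n ∧ 1 ≤ k ∧
        ((Real.log n ≤ (Real.log X) ^ A ∧ Real.log k ≤ (Real.log X) ^ A) ∨
          ∃ p : ℕ, p.Prime ∧ Real.log p ≤ (Real.log N) ^ (1 - ε) ∧ p ∣ m * b * (g * x + r)) ∧
        (a ^ m + b ^ n = (g * x + r) ^ k ∨ b ^ n + (g * x + r) ^ k = a ^ m ∨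
          (g * x + r) ^ k + a ^ m = b ^ n)}.ncard : ℝ) ≤ (N : ℝ) ^ (1 - κ)

theorem stmt_F1 (hX0 : Stmt_X0) (hSt : MP_2738db_nt_U.Stmt_Step) (hTw : Stmt_Twa)
    (hW : MP_2738db_nt_A.Stmt_W) : Stmt_F1 := by
  intro ε hε0
  set δ : ℝ := ε / (1 + ε) with hδ
  have hε1 : (0 : ℝ) < 1 + ε := by linarith
  have hδ0 : 0 < δ := by positivity
  have hδ1 : δ < 1 := by rw [hδ, div_lt_one hε1]; linarith
  have hδε : δ ≤ ε := by
    rw [hδ, div_le_iff₀ hε1]; nlinarith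
  obtain ⟨C1, hC1, hst⟩ := hSt
  obtain ⟨CT, hCT, htw⟩ := hTw
  obtain ⟨CW, hCW, hw⟩ := hW
  obtain ⟨κ₀, X₁, hκ₀, hcore⟩ := hX0 (δ / 4) (by linarith)
  set κ := min κ₀ 1 with hκd
  have hκ : 0 < κ := lt_min hκ₀ one_pos
  have hκ1 : κ ≤ 1 := min_le_right _ _
  refine ⟨κ / 2, by positivity, fun A => ?_⟩
  obtain ⟨u0, hu0⟩ := numericF δ (|A| + 2) C1 CT CW κ hδ0 hδ1 hCW
  refine ⟨max X₁ (Real.exp (Real.exp (max 1 u0))), ?_⟩
  intro X N b g r hX hN hb2 hbX hg hgN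
  obtain ⟨hXp, hNp, hV1, hlV1, huu, hVP⟩ := sizes hε0 hδ ((le_max_right _ _).trans hX) hN
    (κ := κ)
  have num := hu0 _ huu
  set u := Real.log N with hu
  set V := Real.log X with hV
  have hu1 := num.u1
  have hP1 := num.P1
  have hNr : (0 : ℝ) < N := by exact_mod_cast hNp
  have hN1 : (1 : ℝ) ≤ N := by exact_mod_cast hNp
  have hc := hcore X N b g r ((le_max_left _ _).trans hX) (by
    refine le_trans ?_ hN
    apply Real.exp_le_exp.2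
    exact Real.rpow_le_rpow_of_exponent_le hlV1 (by linarith)) hb2 hbX hg hgN
  have hc' : ((ExcX N b g r (u ^ (1 - δ / 4)) (Real.exp (u ^ (1 - δ / 4)))).ncard : ℝ)
      ≤ (N : ℝ) ^ (1 - κ) := by
    refine hc.trans ?_
    apply Real.rpow_le_rpow_of_exponent_le hN1
    have := min_le_left κ₀ 1
    linarith
  have hlog : ∀ z : ℕ, 1 ≤ z → z ≤ X → Real.log z ≤ V := by
    intro z h1 h2
    exact Real.log_le_log (by exact_mod_cast h1) (by exact_mod_cast h2)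
  set V' := max 1 (V ^ A) with hV'
  have hVA : V ^ A ≤ Real.exp ((|A|) * u ^ (1 - δ)) := by
    calc V ^ A ≤ V ^ |A| := Real.rpow_le_rpow_of_exponent_le hV1 (le_abs_self A)
      _ ≤ (Real.exp (u ^ (1 - δ))) ^ |A| := Real.rpow_le_rpow (by linarith) hVP (abs_nonneg A)
      _ = _ := by rw [← Real.exp_mul, mul_comm]
  have hA0 := abs_nonneg A
  have hPW : ∀ z : ℝ, z ≤ |A| + 2 → Real.exp (z * u ^ (1 - δ)) ≤ Real.exp (u ^ (1 - δ / 2)) := by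
    intro z hz
    refine le_trans (Real.exp_le_exp.2 ?_) num.hB
    exact mul_le_mul_of_nonneg_right hz (by linarith)
  have hVW' : V' ≤ Real.exp (u ^ (1 - δ / 2)) := by
    rw [hV']
    apply max_le
    · exact Real.one_le_exp (Real.rpow_nonneg (by linarith) _)
    · exact hVA.trans (hPW _ (by linarith))
  have hVW : V ≤ Real.exp (u ^ (1 - δ / 2)) := by
    refine hVP.trans ?_
    have := hPW 1 (by linarith)
    rwa [one_mul] at this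
  have hwV : Real.exp (u ^ (1 - δ)) * V ≤ Real.exp (u ^ (1 - δ / 2)) := by
    calc Real.exp (u ^ (1 - δ)) * V ≤ Real.exp (u ^ (1 - δ)) * Real.exp (u ^ (1 - δ)) := by gcongr
      _ = Real.exp (2 * u ^ (1 - δ)) := by rw [← Real.exp_add]; congr 1; ring
      _ ≤ _ := hPW 2 (by linarith)
  have hw2 : 2 ≤ Real.exp (u ^ (1 - δ)) := by
    have := Real.add_one_le_exp (u ^ (1 - δ))
    linarith
  have hQ1 : 1 ≤ u ^ (1 - δ / 4) := by linarith [num.PQ]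
  have hlog2 : Real.log 2 ≤ u ^ (1 - δ / 4) := by
    have := Real.log_two_lt_d9
    linarith
  have hεP : u ^ (1 - ε) ≤ u ^ (1 - δ) := Real.rpow_le_rpow_of_exponent_le hu1 (by linarith)
  set Lam := Real.exp (u ^ (1 - 3 * δ / 8)) with hLam
  have hPL : Real.exp (u ^ (1 - δ)) ≤ Lam :=
    Real.exp_le_exp.2 (Real.rpow_le_rpow_of_exponent_le hu1 (by linarith))
  set U := Lam * Real.exp (2 * u ^ (1 - δ)) with hU
  have hE2 : 1 ≤ Real.exp (2 * u ^ (1 - δ)) := Real.one_le_exp (by linarith)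
  have hLU : Lam ≤ U := by
    have : 0 < Lam := Real.exp_pos _
    rw [hU]
    nlinarith
  have hU2 : 2 ≤ U := num.L2.trans hLU
  have hVU : V ≤ U := hVP.trans (hPL.trans hLU)
  exact from_core hκ hκ1 hNp num.uκ hg hlog2 (fun c m n k =>
    ((Real.log n ≤ V ^ A ∧ Real.log k ≤ V ^ A) ∨
          ∃ p : ℕ, p.Prime ∧ Real.log p ≤ u ^ (1 - ε) ∧ p ∣ m * b * c)) hc' (by
    intro x hx1 hxN hc2 hbc a m n k ha hm hn hk hcond heq
    set c := g * x + r with hcd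
    have hcX : c ≤ X := by
      have : g * x ≤ g * N := Nat.mul_le_mul_left g hxN
      omega
    have hbV := hlog b (by omega) hbX
    have hcV := hlog c (by omega) hcX
    -- a prime `l` dividing the exponent
    have hl : ∃ a' m' l : ℕ, 1 ≤ a' ∧ 2 ≤ m' ∧ a' ^ m' = a ^ m ∧ l.Prime ∧ l ∣ m' ∧
        (l : ℝ) ≤ Lam := by
      by_cases ha1 : a = 1
      · exact ⟨1, 2, 2, le_rfl, le_rfl, by rw [ha1]; simp, Nat.prime_two, dvd_rfl,
          by exact_mod_cast num.L2⟩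
      have ha2 : 2 ≤ a := by omega
      have hlp := Nat.minFac_prime (show m ≠ 1 by omega)
      have hst' : ∀ p : ℕ, p.Prime → p ∣ b * c → (p : ℝ) ≤ Real.exp (u ^ (1 - δ)) →
          (m.minFac : ℝ) ≤ Lam := fun p hp hpd hpw =>
        step_small hst hC1 hV1 hw2 hwV num.hi ha2 hb2 hc2 hbc hm hn hk hbV hcV hp hpd hpw heq
      rcases hcond with ⟨h1, h2⟩ | ⟨p, hp, hpl, hpd⟩
      · refine ⟨a, m, m.minFac, ha, hm, rfl, hlp, Nat.minFac_dvd m, ?_⟩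
        by_cases hodd : 2 ∣ b * c
        · exact hst' 2 Nat.prime_two hodd (by exact_mod_cast hw2)
        · exact two_small htw hCT hV1 hVW (le_max_left _ _) hVW' num.h2 hb2 hc2 hbc hm hn hk hbV hcV
            (h1.trans (le_max_right _ _)) (h2.trans (le_max_right _ _)) hodd heq
      · have hpw : (p : ℝ) ≤ Real.exp (u ^ (1 - δ)) := by
          rw [← Real.log_le_iff_le_exp (by exact_mod_cast hp.pos)]
          exact hpl.trans hεP
        rw [mul_assoc] at hpd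
        rcases (Nat.Prime.dvd_mul hp).1 hpd with h3 | h3
        · exact ⟨a, m, p, ha, hm, rfl, hp, h3, hpw.trans hPL⟩
        · exact ⟨a, m, m.minFac, ha, hm, rfl, hlp, Nat.minFac_dvd m, hst' p hp h3 hpw⟩
    obtain ⟨a', m', l, ha', hm', ham, hlp, hlm, hlL⟩ := hl
    refine ⟨a', m', l, ha', hm', ham, hlp, hlm, ?_, ?_⟩
    · refine le_trans ?_ num.LQ
      rw [Real.log_le_iff_le_exp (by exact_mod_cast hlp.pos)]
      exact hlL
    · obtain ⟨s, hs⟩ := hlm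
      have hsl : (a' ^ s) ^ l = a ^ m := by rw [← ham, hs, mul_comm, pow_mul]
      have h1 := (hw l (a' ^ s) b c n k U hlp hb2 hc2 hbc (Nat.one_le_pow _ _ ha') hn hk
        (by rw [hsl]; exact heq) hU2 (hlL.trans hLU) (hbV.trans hVU) (hcV.trans hVU)).2
      have h2 := omega_le (show 0 < k from hk)
      have h3 := num.hW
      have h4 : 0 ≤ U ^ CW := Real.rpow_nonneg (by linarith) _
      have h5 : U ^ CW ≤ CW * U ^ CW := by nlinarith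
      linarith)

/-- **The flagship**: sets of at most `N ^ κ` bases -/
def Stmt_FB : Prop :=
  ∀ ε : ℝ, 0 < ε → ∃ κ : ℝ, 0 < κ ∧ ∀ A : ℝ, ∃ X₀ : ℝ, ∀ (X N g r : ℕ) (B : Finset ℕ), X₀ ≤ X →
    Real.exp (Real.log (Real.log X) ^ (1 + ε)) ≤ N → (B.card : ℝ) ≤ (N : ℝ) ^ κ →
    (∀ b ∈ B, 2 ≤ b ∧ b ≤ X) → 1 ≤ g → g * N + r ≤ X →
    ({x : ℕ | 1 ≤ x ∧ x ≤ N ∧ ∃ b ∈ B, Nat.Coprime b (g * x + r) ∧ ∃ a m n k : ℕ, 1 ≤ a ∧
        2 ≤ m ∧ 1 ≤ n ∧ 1 ≤ k ∧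
        ((Real.log n ≤ (Real.log X) ^ A ∧ Real.log k ≤ (Real.log X) ^ A) ∨
          ∃ p : ℕ, p.Prime ∧ Real.log p ≤ (Real.log N) ^ (1 - ε) ∧ p ∣ m * b * (g * x + r)) ∧
        (a ^ m + b ^ n = (g * x + r) ^ k ∨ b ^ n + (g * x + r) ^ k = a ^ m ∨
          (g * x + r) ^ k + a ^ m = b ^ n)}.ncard : ℝ) ≤ (N : ℝ) ^ (1 - κ)

theorem stmt_FB (h : Stmt_F1) : Stmt_FB := by
  classical
  intro ε hε
  obtain ⟨κ, hκ, hA⟩ := h ε hε
  refine ⟨κ / 2, by positivity, fun A => ?_⟩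
  obtain ⟨X₀, hX₀⟩ := hA A
  refine ⟨X₀, ?_⟩
  intro X N g r B hX hN hBc hB hg hgN
  have hNr : (0 : ℝ) < N := lt_of_lt_of_le (Real.exp_pos _) hN
  set F : ℕ → Finset ℕ := fun b => (Icc 1 N).filter (fun x => Nat.Coprime b (g * x + r) ∧
    ∃ a m n k : ℕ, 1 ≤ a ∧ 2 ≤ m ∧ 1 ≤ n ∧ 1 ≤ k ∧
        ((Real.log n ≤ (Real.log X) ^ A ∧ Real.log k ≤ (Real.log X) ^ A) ∨
          ∃ p : ℕ, p.Prime ∧ Real.log p ≤ (Real.log N) ^ (1 - ε) ∧ p ∣ m * b * (g * x + r)) ∧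
        (a ^ m + b ^ n = (g * x + r) ^ k ∨ b ^ n + (g * x + r) ^ k = a ^ m ∨
          (g * x + r) ^ k + a ^ m = b ^ n)) with hF
  have h1 : ∀ b ∈ B, ((F b).card : ℝ) ≤ (N : ℝ) ^ (1 - κ) := by
    intro b hb
    have h2 := hX₀ X N b g r hX hN (hB b hb).1 (hB b hb).2 hg hgN
    rw [← Set.ncard_coe_finset (F b)]
    refine le_trans (le_of_eq ?_) h2
    congr 2
    ext x
    rw [hF]
    simp only [coe_filter, mem_Icc, Set.mem_ofPred_eq, and_assoc]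
  have h2 : {x : ℕ | 1 ≤ x ∧ x ≤ N ∧ ∃ b ∈ B, Nat.Coprime b (g * x + r) ∧ ∃ a m n k : ℕ, 1 ≤ a ∧
        2 ≤ m ∧ 1 ≤ n ∧ 1 ≤ k ∧
        ((Real.log n ≤ (Real.log X) ^ A ∧ Real.log k ≤ (Real.log X) ^ A) ∨
          ∃ p : ℕ, p.Prime ∧ Real.log p ≤ (Real.log N) ^ (1 - ε) ∧ p ∣ m * b * (g * x + r)) ∧
        (a ^ m + b ^ n = (g * x + r) ^ k ∨ b ^ n + (g * x + r) ^ k = a ^ m ∨
          (g * x + r) ^ k + a ^ m = b ^ n)} = ↑(B.biUnion F) := by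
    ext x
    rw [mem_coe, mem_biUnion]
    constructor
    · rintro ⟨hx1, hxN, b, hb, hbc, hrest⟩
      exact ⟨b, hb, mem_filter.2 ⟨mem_Icc.2 ⟨hx1, hxN⟩, hbc, hrest⟩⟩
    · rintro ⟨b, hb, hx⟩
      obtain ⟨hx1, hbc, hrest⟩ := mem_filter.1 hx
      rw [mem_Icc] at hx1
      exact ⟨hx1.1, hx1.2, b, hb, hbc, hrest⟩
  rw [h2, Set.ncard_coe_finset]
  calc ((B.biUnion F).card : ℝ) ≤ ∑ b ∈ B, ((F b).card : ℝ) := by
        exact_mod_cast card_biUnion_le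
    _ ≤ ∑ _b ∈ B, (N : ℝ) ^ (1 - κ) := sum_le_sum h1
    _ = B.card * (N : ℝ) ^ (1 - κ) := by rw [sum_const, nsmul_eq_mul]
    _ ≤ (N : ℝ) ^ (κ / 2) * (N : ℝ) ^ (1 - κ) :=
        mul_le_mul_of_nonneg_right hBc (Real.rpow_nonneg hNr.le _)
    _ = (N : ℝ) ^ (1 - κ / 2) := by rw [← Real.rpow_add hNr]; congr 1; ring

end Pool.Agent.Work.MP_2738db_nt_X.helper40
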