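import Pool.Agent.Work.MP_2738db_nt_X_helper40.Num
import Pool.Agent.Work.MP_2738db_nt_Z_helper40.Main2

/-! Block FIN (helper40), part 1: the sieve core. -/

set_option autoImplicit false

namespace Pool.Agent.Work.MP_2738db_nt_X.helper40

open Finset Filter
open Pool.Agent.Work.MP_2738db_nt_U (PY LM)
open Pool.Agent.Work.MP_2738db_nt_Z (PR DQ KZ Stmt_Mom)
open Pool.Agent.Work.MP_2738db_nt_Z.helper40 (GoodD Qs mem_Qs Qs_card Qs_dvd KZ_bounds one_setS)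
open Pool.Agent.Work.MP_2738db_nt_U.helper40 (pow_red gcd_red prod_PY_le mem_PY omega_le sβ sρ)

/-- the sieving primes are large compared with the common divisor of `q - 1` and `k` -/
lemma gcd_smallX {t y Lam : ℝ} (hd : 2 * Lam * Real.exp (t / 40) ≤ Real.exp (t / 2))
    (hg : 3200 * Lam ≤ Real.exp (t / 8))
    {b l k k₀ q : ℕ} {D : Finset ℕ} {D₀ : ℝ} (hD : GoodD t y D D₀) (hl : 1 ≤ l)
    (hlL : (l : ℝ) ≤ Lam)
    (hgcd : (Nat.gcd k k₀ : ℝ) ≤ (KZ t D₀ l) ^ (3 / 10 : ℝ)) (hk0 : (KZ t D₀ l) ^ (9 / 10 : ℝ) ≤ k₀)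
    (hk01 : 1 ≤ k₀) (hq : q ∈ Qs t b l k₀ D) : 400 * (Nat.gcd k (q - 1)) ^ 2 ≤ q := by
  obtain ⟨hK1, hK2, hK3⟩ := KZ_bounds hl hlL hD.1 hD.2.1 hd
  set K := KZ t D₀ l with hK
  have hKpos : 0 < K := lt_of_lt_of_le (Real.exp_pos _) hK1
  obtain ⟨hqp, _, _, d, hd, h4⟩ := mem_Qs hq
  obtain ⟨d1, d2, _⟩ := hD.2.2 d hd
  have hD1 := hD.1
  have hlr : (1 : ℝ) ≤ l := by exact_mod_cast hl
  have hd0 : 0 < d := by
    have : (0 : ℝ) < d := by linarith
    exact_mod_cast this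
  have hq1 : q - 1 = (2 * l * d) * k₀ := by rw [h4]; omega
  have g1 : Nat.gcd k (q - 1) ≤ (2 * l * d) * Nat.gcd k k₀ := by
    rw [hq1]
    have hX : 0 < 2 * l * d := by positivity
    calc Nat.gcd k ((2 * l * d) * k₀)
        ≤ Nat.gcd k (2 * l * d) * Nat.gcd k k₀ :=
          Nat.le_of_dvd (Nat.mul_pos (Nat.gcd_pos_of_pos_right _ hX) (Nat.gcd_pos_of_pos_right _ hk01))
            (Nat.gcd_mul_right_dvd_mul_gcd _ _ _)
      _ ≤ _ := Nat.mul_le_mul_right _ (Nat.le_of_dvd hX (Nat.gcd_dvd_right _ _))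
  have g2 : (Nat.gcd k (q - 1) : ℝ) ≤ 4 * l * D₀ * K ^ (3 / 10 : ℝ) := by
    have h5 : (Nat.gcd k (q - 1) : ℝ) ≤ (2 * l * d) * Nat.gcd k k₀ := by exact_mod_cast g1
    refine h5.trans ?_
    apply mul_le_mul _ hgcd (by positivity) (by positivity)
    calc (2 : ℝ) * l * d ≤ 2 * l * (2 * D₀) := by gcongr
      _ = _ := by ring
  have g3 : 2 * l * D₀ * K ^ (9 / 10 : ℝ) ≤ q := by
    have h5 : (q : ℝ) = 1 + 2 * l * d * k₀ := by rw [h4]; push_cast; ring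
    rw [h5]
    have h6 : 2 * l * D₀ * K ^ (9 / 10 : ℝ) ≤ 2 * l * d * k₀ := by
      have h8 : 0 ≤ K ^ (9 / 10 : ℝ) := Real.rpow_nonneg hKpos.le _
      gcongr
    linarith
  have hK3' : 3200 * (l * D₀) ≤ K ^ (3 / 10 : ℝ) := by
    have h1 : 3200 * (l * D₀) ≤ (3200 * Lam) * Real.exp (t / 40) := by
      have : (l : ℝ) * D₀ ≤ Lam * Real.exp (t / 40) :=
        mul_le_mul hlL hD.2.1 (by linarith) (by linarith)
      linarith
    refine h1.trans ?_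
    calc (3200 * Lam) * Real.exp (t / 40) ≤ Real.exp (t / 8) * Real.exp (t / 40) :=
          mul_le_mul_of_nonneg_right hg (Real.exp_pos _).le
      _ = (Real.exp (t / 2)) ^ (3 / 10 : ℝ) := by
          rw [← Real.exp_mul, ← Real.exp_add]; congr 1; ring
      _ ≤ K ^ (3 / 10 : ℝ) := Real.rpow_le_rpow (Real.exp_pos _).le hK1 (by norm_num)
  have hfin : (400 : ℝ) * (Nat.gcd k (q - 1) : ℝ) ^ 2 ≤ q := by
    have e0 : 0 ≤ K ^ (3 / 10 : ℝ) := Real.rpow_nonneg hKpos.le _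
    have e1 : (K ^ (3 / 10 : ℝ)) ^ 2 * K ^ (3 / 10 : ℝ) = K ^ (9 / 10 : ℝ) := by
      rw [← Real.rpow_natCast, ← Real.rpow_mul hKpos.le, ← Real.rpow_add hKpos]
      norm_num
    calc (400 : ℝ) * (Nat.gcd k (q - 1) : ℝ) ^ 2 ≤ 400 * (4 * l * D₀ * K ^ (3 / 10 : ℝ)) ^ 2 := by
          gcongr
      _ = (2 * l * D₀) * ((3200 * (l * D₀)) * (K ^ (3 / 10 : ℝ)) ^ 2) := by ring
      _ ≤ (2 * l * D₀) * (K ^ (3 / 10 : ℝ) * (K ^ (3 / 10 : ℝ)) ^ 2) := by
          apply mul_le_mul_of_nonneg_left _ (by positivity)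
          apply mul_le_mul_of_nonneg_right hK3' (by positivity)
      _ = 2 * l * D₀ * K ^ (9 / 10 : ℝ) := by rw [← e1]; ring
      _ ≤ q := g3
  exact_mod_cast hfin

/-- one set of the union bound -/
noncomputable def FSX (N b P g r : ℕ) (t : ℝ) (DD : ℕ → Finset ℕ) (θ : ℕ × ℕ × ℕ × ℕ × ℕ) :
    Finset ℕ := by
  classical
  exact (Icc 1 N).filter (fun x => ∀ q ∈ Qs t P θ.1 θ.2.1 (DD θ.1), ∃ s : ZMod q,
    ((g * x + r : ℕ) : ZMod q) ^ θ.2.2.1 + ((sβ θ.2.2.2.2 * ((b ^ θ.2.2.2.1 : ℕ) : ℤ) : ℤ) : ZMod q)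
      = ((sρ θ.2.2.2.2 : ℤ) : ZMod q) * s ^ θ.1)

/-- the good parameters -/
def GoodX (P : ℕ) (t γ : ℝ) (DD : ℕ → Finset ℕ) (θ : ℕ × ℕ × ℕ × ℕ × ℕ) : Prop :=
  θ.1.Prime ∧ 1 ≤ θ.2.2.1 ∧ Real.exp (γ * t) / 2 ≤ ((Qs t P θ.1 θ.2.1 (DD θ.1)).card : ℝ) ∧
    (∀ q ∈ Qs t P θ.1 θ.2.1 (DD θ.1), 400 * (Nat.gcd θ.2.2.1 (q - 1)) ^ 2 ≤ q)

lemma FSX_card (hL : MP_2738db_nt_U.Stmt_Loc) (hM : Stmt_Mom)
    {e C CT T γ γ1 : ℝ} {u W t y Lam : ℝ}
    (num : NumX e C CT T γ γ1 u W t y Lam) (hγ : 0 < γ) (hγ1 : 0 < γ1) (hg1 : γ1 ≤ γ / 32)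
    (hg2 : γ1 ≤ 1 / 2) {N b P g r : ℕ} (hbP : b ∣ P) (hgP : g ∣ P) (hN : (N : ℝ) = Real.exp u)
    (DD : ℕ → Finset ℕ) (θ : ℕ × ℕ × ℕ × ℕ × ℕ) (hθ : GoodX P t γ DD θ) :
    ((FSX N b P g r t DD θ).card : ℝ) ≤ 2 * Real.exp ((1 - γ1) * u) := by
  classical
  obtain ⟨hlp, hκ, hcard, hg⟩ := hθ
  set Q := Qs t P θ.1 θ.2.1 (DD θ.1) with hQ
  have hQp : ∀ q ∈ Q, q.Prime := fun q hq => (mem_Qs hq).1
  have hq2 : ∀ q ∈ Q, 400 ≤ q := by
    intro q hq
    have h1 := hg q hq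
    have h2 : 1 ≤ (Nat.gcd θ.2.2.1 (q - 1)) ^ 2 :=
      Nat.one_le_pow _ _ (Nat.gcd_pos_of_pos_left _ hκ)
    omega
  have hQne : Q.Nonempty := by
    rw [← Finset.card_pos]
    have : (0 : ℝ) < (Q.card : ℝ) := lt_of_lt_of_le (by positivity) hcard
    exact_mod_cast this
  obtain ⟨hr1, hsz⟩ := set_numX num.u1 num.t4 num.ht num.hr hγ hγ1 hg1 hg2 hcard
    (z := ⌊Real.exp t⌋₊) (Nat.floor_le (Real.exp_pos t).le)
  have h1 := one_setS hL hM (N := N) (l := θ.1) (κ := θ.2.2.1) (z := ⌊Real.exp t⌋₊)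
    (r := ⌊u / (8 * t)⌋₊) (g := g) (h := r) hlp hκ Q hQp
    (fun q hq => Nat.le_floor (mem_Qs hq).2.1)
    (by
      intro q hq
      obtain ⟨_, _, _, d, _, h4⟩ := mem_Qs hq
      refine ⟨2 * d * θ.2.1, ?_⟩
      have : q - 1 = 2 * θ.1 * d * θ.2.1 := by omega
      rw [this]; ring)
    hg hQne hr1
    (fun q hq hqg => (mem_Qs hq).2.2.1 (hqg.trans hgP))
    (sβ θ.2.2.2.2 * ((b ^ θ.2.2.2.1 : ℕ) : ℤ)) (sρ θ.2.2.2.2)
    (by
      intro q hq h
      haveI : Fact q.Prime := ⟨hQp q hq⟩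
      rw [ZMod.intCast_zmod_eq_zero_iff_dvd] at h
      have h3 : (q : ℤ) ∣ ((b ^ θ.2.2.2.1 : ℕ) : ℤ) := by
        unfold sβ at h
        split_ifs at h
        · simpa using h
        · simpa using h
      have h4 : q ∣ b ^ θ.2.2.2.1 := by exact_mod_cast h3
      exact (mem_Qs hq).2.2.1 (((hQp q hq).dvd_of_dvd_pow h4).trans hbP))
    (by
      intro q hq h
      haveI : Fact q.Prime := ⟨hQp q hq⟩
      rw [ZMod.intCast_zmod_eq_zero_iff_dvd] at h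
      have h5 := hq2 q hq
      have h3 : (q : ℤ) ∣ 1 := by
        unfold sρ at h
        split_ifs at h
        · simpa using h
        · exact h
      have := Int.le_of_dvd (by norm_num) h3
      omega)
  have h2 : {x : ℕ | 1 ≤ x ∧ x ≤ N ∧ ∀ q ∈ Q, ∃ s : ZMod q,
      ((g * x + r : ℕ) : ZMod q) ^ θ.2.2.1 + ((sβ θ.2.2.2.2 * ((b ^ θ.2.2.2.1 : ℕ) : ℤ) : ℤ) : ZMod q)
        = ((sρ θ.2.2.2.2 : ℤ) : ZMod q) * s ^ θ.1} = ↑(FSX N b P g r t DD θ) := by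
    ext c
    unfold FSX
    simp only [Set.mem_ofPred_eq, coe_filter, mem_Icc, and_assoc, ← hQ]
  rw [h2, Set.ncard_coe_finset] at h1
  refine h1.trans ?_
  rw [hN]
  exact hsz

/-- the exceptional set of the core theorem -/
def ExcX (N b g r : ℕ) (E₀ F₀ : ℝ) : Set ℕ :=
  {x : ℕ | 1 ≤ x ∧ x ≤ N ∧ Nat.Coprime b (g * x + r) ∧ ∃ a m n k : ℕ, 1 ≤ a ∧ 2 ≤ m ∧
        1 ≤ n ∧ 1 ≤ k ∧ (∃ l : ℕ, l.Prime ∧ l ∣ m ∧ Real.log l ≤ E₀) ∧
        (k.primeFactors.card : ℝ) ≤ F₀ ∧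
        (a ^ m + b ^ n = (g * x + r) ^ k ∨ b ^ n + (g * x + r) ^ k = a ^ m ∨
          (g * x + r) ^ k + a ^ m = b ^ n)}

/-- the core: exponents `m` with a prime factor which is not too large, `k` with few prime
factors, no other condition -/
def Stmt_X0 : Prop :=
  ∀ ε : ℝ, 0 < ε → ∃ κ X₀ : ℝ, 0 < κ ∧ ∀ X N b g r : ℕ, X₀ ≤ X →
    Real.exp (Real.log (Real.log X) ^ (1 + ε)) ≤ N → 2 ≤ b → b ≤ X → 1 ≤ g → g * N + r ≤ X →
    ((ExcX N b g r ((Real.log N) ^ (1 - ε)) (Real.exp ((Real.log N) ^ (1 - ε)))).ncard : ℝ)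
      ≤ (N : ℝ) ^ (1 - κ)

theorem stmt_X0 (hL : MP_2738db_nt_U.Stmt_Loc) (hM : Stmt_Mom) (hD : Stmt_Dpq) : Stmt_X0 := by
  classical
  intro ε hε0
  set e : ℝ := ε / (1 + ε) with he
  have hε1 : (0 : ℝ) < 1 + ε := by linarith
  have he0 : 0 < e := by positivity
  have he1 : e < 1 := by rw [he, div_lt_one hε1]; linarith
  have he2 : (1 + ε) * (1 - e) = 1 := by rw [he]; field_simp; ring
  have he3 : e ≤ ε := by
    rw [he, div_le_iff₀ hε1]; nlinarith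
  obtain ⟨γ, hγ, T, hDp⟩ := hD (e / 4) (by linarith) (by linarith)
  set γ1 : ℝ := min (γ / 32) (1 / 2) with hγ1d
  have hg1 : γ1 ≤ γ / 32 := min_le_left _ _
  have hg2 : γ1 ≤ 1 / 2 := min_le_right _ _
  have hγ1 : 0 < γ1 := lt_min (by positivity) (by norm_num)
  obtain ⟨u0, hu0⟩ := numericX e 1 1 T γ γ1 he0 he1 hγ hγ1
  refine ⟨γ1 / 2, Real.exp (Real.exp (max 1 u0)), by positivity, ?_⟩
  intro X N b g r hX hN hb2 hbX hg hgN
  set E₀ := (Real.log N) ^ (1 - ε) with hE₀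
  -- the sizes of `X` and `N`
  have hX0 : (0 : ℝ) < X := lt_of_lt_of_le (Real.exp_pos _) hX
  have hN0r : (0 : ℝ) < N := lt_of_lt_of_le (Real.exp_pos _) hN
  have hN0 : 0 < N := by exact_mod_cast hN0r
  set V := Real.log X with hV
  set u := Real.log N with hu
  have hV1 : Real.exp (max 1 u0) ≤ V := by
    rw [hV, Real.le_log_iff_exp_le hX0]; exact hX
  have hV0 : 0 < V := lt_of_lt_of_le (Real.exp_pos _) hV1
  have hlV : max 1 u0 ≤ Real.log V := by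
    rw [Real.le_log_iff_exp_le hV0]; exact hV1
  have hlV1 : 1 ≤ Real.log V := (le_max_left _ _).trans hlV
  have hlV0 : 0 < Real.log V := by linarith
  have hu1' : Real.log V ^ (1 + ε) ≤ u := by
    rw [hu, Real.le_log_iff_exp_le hN0r]; exact hN
  have huu : u0 ≤ u := by
    refine ((le_max_right _ _).trans hlV).trans (le_trans ?_ hu1')
    calc Real.log V = Real.log V ^ (1 : ℝ) := (Real.rpow_one _).symm
      _ ≤ Real.log V ^ (1 + ε) := Real.rpow_le_rpow_of_exponent_le hlV1 (by linarith)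
  have hVW : V ≤ Real.exp (u ^ (1 - e)) := by
    rw [← Real.log_le_iff_le_exp hV0]
    calc Real.log V = (Real.log V ^ (1 + ε)) ^ (1 - e) := by
          rw [← Real.rpow_mul hlV0.le, he2, Real.rpow_one]
      _ ≤ u ^ (1 - e) := Real.rpow_le_rpow (Real.rpow_nonneg hlV0.le _) hu1' (by linarith)
  have hV1' : 1 ≤ V := by
    have := Real.add_one_le_exp (max 1 u0)
    have := le_max_left 1 u0
    linarith
  have num := hu0 u huu
  set W := Real.exp (u ^ (1 - e)) with hW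
  set t := u ^ (1 - e / 2) with ht
  set y := u ^ (1 - e / 4) with hy
  set Lam := Real.exp (u ^ (1 - 3 * e / 4)) with hLam
  have hu3 := num.u1
  have hu0' : 0 < u := by linarith
  have hu1 : 1 ≤ u := by linarith
  have hy3 := num.y3
  have ht4 := num.t4
  have hNe : (N : ℝ) = Real.exp u := by rw [hu, Real.exp_log hN0r]
  have hlog : ∀ z : ℕ, 1 ≤ z → z ≤ X → Real.log z ≤ V := by
    intro z h1 h2
    exact Real.log_le_log (by exact_mod_cast h1) (by exact_mod_cast h2)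
  have hgX : g ≤ X := by
    have : g ≤ g * N := Nat.le_mul_of_pos_right g hN0
    omega
  set P : ℕ := b * g with hP
  have hP0 : 0 < P := Nat.mul_pos (by omega) hg
  have hgP : g ∣ P := Dvd.intro_left _ rfl
  have hbP : b ∣ P := Dvd.intro _ rfl
  have hPu : Real.log P ≤ 2 * V := by
    rw [hP]
    push_cast
    rw [Real.log_mul (by exact_mod_cast (by omega : b ≠ 0)) (by exact_mod_cast (by omega : g ≠ 0))]
    have h1 := hlog b (by omega) hbX
    have h2 := hlog g hg hgX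
    linarith
  -- the sets `D`
  have hDex : ∀ l : ℕ, ∃ (D : Finset ℕ) (D₀ : ℝ), l.Prime → (l : ℝ) ≤ Lam →
      (GoodD t y D D₀ ∧ ∀ k : ℕ, 1 ≤ k → (k.primeFactors.card : ℝ) ≤ Real.exp (t ^ (1 - e / 4)) →
          ∃ k₀ : ℕ, 1 ≤ k₀ ∧ (k₀ : ℝ) ≤ KZ t D₀ l ∧
            (Nat.gcd k k₀ : ℝ) ≤ (KZ t D₀ l) ^ (3 / 10 : ℝ) ∧
            (KZ t D₀ l) ^ (9 / 10 : ℝ) ≤ (k₀ : ℝ) ∧
            Real.exp (γ * t) ≤ ((DQ t l k₀ D).card : ℝ)) := by
    intro l
    by_cases h : l.Prime ∧ (l : ℝ) ≤ Lam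
    · have hll : Real.log l ≤ t ^ (1 - e / 4) := by
        refine le_trans ?_ num.LA
        exact Real.log_le_log (by exact_mod_cast h.1.pos) h.2
      obtain ⟨D, D₀, h1, h2, h3, h4⟩ := hDp t y num.tT num.ty num.yA l h.1 hll
      exact ⟨D, D₀, fun _ _ => ⟨⟨h1, h2, h3⟩, h4⟩⟩
    · exact ⟨∅, 0, fun h1 h2 => absurd ⟨h1, h2⟩ h⟩
  choose DD D0 hDD using hDex
  set Y := Real.exp (t + 2 * y * Real.log 4) with hY
  set Θ : Finset (ℕ × ℕ × ℕ × ℕ × ℕ) :=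
    Icc 1 ⌊Lam⌋₊ ×ˢ (Icc 1 ⌊Real.exp t⌋₊ ×ˢ (Icc 1 ⌊Y⌋₊ ×ˢ (Icc 1 ⌊Y⌋₊ ×ˢ range 3))) with hΘ
  have hLam0 : 0 ≤ Lam := (Real.exp_pos _).le
  have hΘc : (Θ.card : ℝ) ≤ Lam * (Real.exp t * (Y * (Y * 3))) := by
    rw [hΘ, card_product, card_product, card_product, card_product, Nat.card_Icc, Nat.card_Icc,
      Nat.card_Icc, card_range]
    simp only [Nat.add_sub_cancel]
    push_cast
    have a1 := Nat.floor_le hLam0
    have a2 := Nat.floor_le (Real.exp_pos t).le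
    have a3 := Nat.floor_le (show 0 ≤ Y from (Real.exp_pos _).le)
    have hY0 : 0 ≤ Y := (Real.exp_pos _).le
    gcongr
  -- the inclusion
  have hincl : ExcX N b g r E₀ (Real.exp E₀)
      ⊆ ↑(({1} : Finset ℕ) ∪ (Θ.filter (GoodX P t γ DD)).biUnion (FSX N b P g r t DD)) := by
    intro x hx
    obtain ⟨hx1, hxN, hbc, a, m, n, k, ha, hm, hn, hk, ⟨l, hlp, hlm, hlE⟩, hkω0, heq⟩ := hx
    rw [coe_union, coe_singleton]
    set c := g * x + r with hc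
    by_cases hc1 : c = 1
    · left
      have h1 : g * x ≤ 1 := by omega
      have h2 : x ≤ g * x := Nat.le_mul_of_pos_left x hg
      rw [Set.mem_singleton_iff]
      omega
    right
    have hc2' : 2 ≤ c := by
      have h2 : x ≤ g * x := Nat.le_mul_of_pos_left x hg
      omega
    have hcX : c ≤ X := by
      have : g * x ≤ g * N := Nat.mul_le_mul_left g hxN
      omega
    rw [mem_coe, mem_biUnion]
    -- the prime exponent
    have hE1 : E₀ ≤ u ^ (1 - e) := by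
      rw [hE₀]
      exact Real.rpow_le_rpow_of_exponent_le hu1 (by linarith)
    have hlL : (l : ℝ) ≤ Lam := by
      rw [hLam, ← Real.log_le_iff_le_exp (by exact_mod_cast hlp.pos)]
      refine hlE.trans (hE1.trans ?_)
      exact Real.rpow_le_rpow_of_exponent_le hu1 (by linarith)
    obtain ⟨m', hm'⟩ := hlm
    obtain ⟨s, has⟩ : ∃ s : ℕ, a ^ m = s ^ l := ⟨a ^ m', by rw [hm', mul_comm, pow_mul]⟩
    have hl1 : 1 ≤ l := hlp.one_lt.le
    rw [has] at heq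
    obtain ⟨hGD, hDE⟩ := hDD l hlp hlL
    have hkω : (k.primeFactors.card : ℝ) ≤ Real.exp (t ^ (1 - e / 4)) := by
      have h1 : Real.exp E₀ ≤ W := Real.exp_le_exp.2 hE1
      have h3 := num.hk
      have h4 := Real.exp_pos (u ^ (1 - e))
      linarith
    obtain ⟨k₀, hk01, hkK, hgcd, hk09, hcard0⟩ := hDE k hk hkω
    have hcard : Real.exp (γ * t) / 2 ≤ ((Qs t P l k₀ (DD l)).card : ℝ) := by
      have h1 := Qs_card (t := t) (b := P) (l := l) (k₀ := k₀) (DD l) hP0 hl1 hk01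
      have h2 := num.hb
      linarith
    obtain ⟨hK1, hK2, hK3⟩ := KZ_bounds hl1 hlL hGD.1 hGD.2.1 num.hd
    have hy0 : 0 ≤ y := by linarith
    have hprodpos : 0 < ∏ r ∈ PY y, r :=
      Finset.prod_pos fun r hr => (mem_PY hy0 hr).1.pos
    have hLM0 : 0 < LM y l k₀ := by
      unfold LM
      have : 0 < l := hl1
      have : 0 < k₀ := hk01
      positivity
    have hLMX : (LM y l k₀ : ℝ) ≤ Y := by
      unfold LM
      push_cast
      have h1 := prod_PY_le hy0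
      push_cast at h1
      have h2 : (2 : ℝ) * l * k₀ ≤ Real.exp t := by
        refine le_trans ?_ hK3
        apply mul_le_mul_of_nonneg_left hkK (by positivity)
      rw [hY, Real.exp_add]
      apply mul_le_mul h2 h1 (by positivity) (Real.exp_pos _).le
    set κ := (k - 1) % LM y l k₀ + 1 with hκ
    have hκX : κ ≤ ⌊Y⌋₊ := by
      apply Nat.le_floor
      refine le_trans ?_ hLMX
      have := Nat.mod_lt (k - 1) hLM0
      exact_mod_cast (by omega : κ ≤ LM y l k₀)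
    set ν := (n - 1) % LM y l k₀ + 1 with hν
    have hνX : ν ≤ ⌊Y⌋₊ := by
      apply Nat.le_floor
      refine le_trans ?_ hLMX
      have := Nat.mod_lt (n - 1) hLM0
      exact_mod_cast (by omega : ν ≤ LM y l k₀)
    have hred : ∀ q ∈ Qs t P l k₀ (DD l), (c : ZMod q) ^ k = (c : ZMod q) ^ κ ∧
        (b : ZMod q) ^ n = (b : ZMod q) ^ ν := fun q hq =>
      ⟨pow_red (mem_Qs hq).1 hLM0 (Qs_dvd hGD hq) hk _, pow_red (mem_Qs hq).1 hLM0 (Qs_dvd hGD hq) hn _⟩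
    -- the sign
    have key : ∃ σ < 3, ∀ q ∈ Qs t P l k₀ (DD l), ∃ s : ZMod q,
        (c : ZMod q) ^ κ + ((sβ σ * ((b ^ ν : ℕ) : ℤ) : ℤ) : ZMod q) = ((sρ σ : ℤ) : ZMod q) * s ^ l := by
      rcases heq with h1 | h1 | h1
      · refine ⟨0, by norm_num, fun q hq => ⟨(s : ZMod q), ?_⟩⟩
        have h2 := congrArg (fun z : ℕ => (z : ZMod q)) h1
        push_cast at h2
        rw [(hred q hq).1, (hred q hq).2] at h2
        rw [show sβ 0 = -1 from rfl, show sρ 0 = 1 from rfl]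
        push_cast
        rw [← h2]; ring
      · refine ⟨1, by norm_num, fun q hq => ⟨(s : ZMod q), ?_⟩⟩
        have h2 := congrArg (fun z : ℕ => (z : ZMod q)) h1
        push_cast at h2
        rw [(hred q hq).1, (hred q hq).2] at h2
        rw [show sβ 1 = 1 from rfl, show sρ 1 = 1 from rfl]
        push_cast
        rw [one_mul, one_mul, ← h2]; ring
      · refine ⟨2, by norm_num, fun q hq => ⟨(s : ZMod q), ?_⟩⟩
        have h2 := congrArg (fun z : ℕ => (z : ZMod q)) h1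
        push_cast at h2
        rw [(hred q hq).1, (hred q hq).2] at h2
        rw [show sβ 2 = -1 from rfl, show sρ 2 = -1 from rfl]
        push_cast
        rw [← h2]; ring
    obtain ⟨τ, hτ, hτq⟩ := key
    refine ⟨(l, k₀, κ, ν, τ), ?_, ?_⟩
    · rw [mem_filter, hΘ, mem_product, mem_product, mem_product, mem_product, mem_Icc, mem_Icc,
        mem_Icc, mem_Icc, mem_range]
      refine ⟨⟨⟨hl1, Nat.le_floor hlL⟩, ⟨hk01, Nat.le_floor (hkK.trans hK2)⟩,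
        ⟨Nat.le_add_left 1 _, hκX⟩, ⟨Nat.le_add_left 1 _, hνX⟩, hτ⟩, ?_⟩
      refine ⟨hlp, Nat.le_add_left 1 _, hcard, ?_⟩
      intro q hq
      show 400 * (Nat.gcd κ (q - 1)) ^ 2 ≤ q
      rw [hκ, gcd_red hLM0 (Qs_dvd hGD hq) hk]
      exact gcd_smallX num.hd num.hg hGD hl1 hlL hgcd hk09 hk01 hq
    · unfold FSX
      rw [mem_filter, mem_Icc]
      exact ⟨⟨hx1, hxN⟩, hτq⟩
  have hcardU : ((({1} : Finset ℕ) ∪ (Θ.filter (GoodX P t γ DD)).biUnion (FSX N b P g r t DD)).card : ℝ)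
      ≤ 1 + (Lam * (Real.exp t * (Y * (Y * 3)))) * (2 * Real.exp ((1 - γ1) * u)) := by
    have h1 : ((({1} : Finset ℕ) ∪ (Θ.filter (GoodX P t γ DD)).biUnion (FSX N b P g r t DD)).card : ℝ)
        ≤ 1 + ∑ θ ∈ Θ.filter (GoodX P t γ DD), ((FSX N b P g r t DD θ).card : ℝ) := by
      have h2 : (({1} : Finset ℕ) ∪ (Θ.filter (GoodX P t γ DD)).biUnion (FSX N b P g r t DD)).card
          ≤ 1 + ∑ θ ∈ Θ.filter (GoodX P t γ DD), (FSX N b P g r t DD θ).card := by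
        refine (card_union_le _ _).trans ?_
        rw [card_singleton]
        exact Nat.add_le_add_left card_biUnion_le _
      exact_mod_cast h2
    refine h1.trans ?_
    have h3 : ∑ θ ∈ Θ.filter (GoodX P t γ DD), ((FSX N b P g r t DD θ).card : ℝ)
        ≤ ∑ _θ ∈ Θ.filter (GoodX P t γ DD), (2 * Real.exp ((1 - γ1) * u)) := by
      apply Finset.sum_le_sum
      intro θ hθ
      exact FSX_card hL hM num hγ hγ1 hg1 hg2 hbP hgP hNe DD θ (mem_filter.mp hθ).2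
    rw [Finset.sum_const, nsmul_eq_mul] at h3
    have h4 : ((Θ.filter (GoodX P t γ DD)).card : ℝ)
        ≤ Lam * (Real.exp t * (Y * (Y * 3))) := by
      refine le_trans ?_ hΘc
      exact_mod_cast card_filter_le _ _
    have h5 : ((Θ.filter (GoodX P t γ DD)).card : ℝ) * (2 * Real.exp ((1 - γ1) * u))
        ≤ (Lam * (Real.exp t * (Y * (Y * 3)))) * (2 * Real.exp ((1 - γ1) * u)) :=
      mul_le_mul_of_nonneg_right h4 (by positivity)
    linarith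
  have hfin := count_numX num hγ1 hg2
  have h1 : (ExcX N b g r E₀ (Real.exp E₀)).ncard
      ≤ (({1} : Finset ℕ) ∪ (Θ.filter (GoodX P t γ DD)).biUnion (FSX N b P g r t DD)).card := by
    have := Set.ncard_le_ncard hincl (Finset.finite_toSet _)
    rwa [Set.ncard_coe_finset] at this
  have h2 : ((ExcX N b g r E₀ (Real.exp E₀)).ncard : ℝ)
      ≤ ((({1} : Finset ℕ) ∪ (Θ.filter (GoodX P t γ DD)).biUnion (FSX N b P g r t DD)).card : ℝ) := by
    exact_mod_cast h1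
  have h3 : (N : ℝ) ^ (1 - γ1 / 2) = Real.exp ((1 - γ1 / 2) * u) := by
    rw [hNe, ← Real.exp_mul, mul_comm]
  rw [h3]
  exact h2.trans (hcardU.trans hfin)

end Pool.Agent.Work.MP_2738db_nt_X.helper40
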