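import Pool.Agent.Work.MP_2738db_nt_X_helper40.Core

/-! Block FIN (helper40), part 2: Theorem X from the sieve core and two logarithms. -/

set_option autoImplicit false

namespace Pool.Agent.Work.MP_2738db_nt_X.helper40

open Finset Filter
open Pool.Agent.Work.MP_2738db_nt_Z (Stmt_Mom)
open Pool.Agent.Work.MP_2738db_nt_U.helper40 (ev_pow ev_log ev_exp omega_le)

/-- the STEP bound, as used: a prime `p ≤ w` divides `b c` -/
lemma step_small {C V w W Lam : ℝ}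
    (hst : ∀ (a b c n k l p : ℕ) (w U : ℝ), 2 ≤ a → 2 ≤ b → 2 ≤ c → Nat.Coprime b c →
      1 ≤ n → 1 ≤ k → l.Prime → p.Prime → p ∣ b * c → 2 ≤ w → (p : ℝ) ≤ w → 1 ≤ U →
      Real.log b ≤ U → Real.log c ≤ U → C * w ^ 2 * U ^ 2 * (1 + Real.log l) ^ 2 < l →
      a ^ l + b ^ n ≠ c ^ k ∧ b ^ n + c ^ k ≠ a ^ l ∧ c ^ k + a ^ l ≠ b ^ n)
    (hC : 1 ≤ C) (hV1 : 1 ≤ V) (hw2 : 2 ≤ w) (hVW : w * V ≤ W)
    (hi : ∀ l : ℕ, Lam < l → C * W ^ 2 * (1 + Real.log l) ^ 2 < l)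
    {a b c m n k p : ℕ} (ha : 2 ≤ a) (hb : 2 ≤ b) (hc : 2 ≤ c) (hbc : Nat.Coprime b c) (hm : 2 ≤ m)
    (hn : 1 ≤ n) (hk : 1 ≤ k) (hbV : Real.log b ≤ V) (hcV : Real.log c ≤ V)
    (hp : p.Prime) (hpbc : p ∣ b * c) (hpw : (p : ℝ) ≤ w)
    (heq : a ^ m + b ^ n = c ^ k ∨ b ^ n + c ^ k = a ^ m ∨ c ^ k + a ^ m = b ^ n) :
    (m.minFac : ℝ) ≤ Lam := by
  by_contra hcon
  rw [not_le] at hcon
  have hl := Nat.minFac_prime (show m ≠ 1 by omega)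
  have hV0 : 0 < V := by linarith
  obtain ⟨m', hm'⟩ := Nat.minFac_dvd m
  set l := m.minFac with hldef
  have ham : a ^ m = (a ^ m') ^ l := by
    conv_lhs => rw [hm', mul_comm, pow_mul]
  have hm0 : m' ≠ 0 := by
    rintro rfl
    rw [mul_zero] at hm'; omega
  have ha2 : 2 ≤ a ^ m' := by
    calc 2 ≤ a := by omega
      _ = a ^ 1 := (pow_one a).symm
      _ ≤ a ^ m' := Nat.pow_le_pow_right (by omega) (by omega)
  have hthr := hi l hcon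
  have h := hst (a ^ m') b c n k l p w V ha2 hb hc hbc hn hk hl hp hpbc hw2
    hpw hV1 hbV hcV (by
      refine lt_of_le_of_lt ?_ hthr
      calc C * w ^ 2 * V ^ 2 * (1 + Real.log l) ^ 2 = C * (w * V) ^ 2 * (1 + Real.log l) ^ 2 := by
            ring
        _ ≤ C * W ^ 2 * (1 + Real.log l) ^ 2 := by gcongr)
  rw [ham] at heq
  rcases heq with h1 | h1 | h1
  · exact h.1 h1
  · exact h.2.1 h1
  · exact h.2.2 h1

/-- the 2-adic bound, as used: `b c` is odd -/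
lemma two_small {CT V V' W Lam : ℝ}
    (htw : ∀ (b c n k v : ℕ) (U lam : ℝ), 2 ≤ b → 2 ≤ c → ¬ 2 ∣ b → ¬ 2 ∣ c →
      Nat.Coprime b c → 1 ≤ n → 1 ≤ k → 1 ≤ U → Real.log b ≤ U → Real.log c ≤ U → 1 ≤ lam →
      Real.log n ≤ lam → Real.log k ≤ lam →
      ((2 : ℤ) ^ v ∣ (c : ℤ) ^ k - (b : ℤ) ^ n ∨ (2 : ℤ) ^ v ∣ (c : ℤ) ^ k + (b : ℤ) ^ n) →
      (v : ℝ) ≤ CT * U ^ 2 * (1 + lam) ^ 2)
    (hCT : 1 ≤ CT) (hV1 : 1 ≤ V) (hVW : V ≤ W) (hV1' : 1 ≤ V') (hVW' : V' ≤ W)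
    (h2 : CT * W ^ 2 * (1 + W) ^ 2 ≤ Lam)
    {a b c m n k : ℕ} (hb : 2 ≤ b) (hc : 2 ≤ c) (hbc : Nat.Coprime b c) (hm : 2 ≤ m)
    (hn : 1 ≤ n) (hk : 1 ≤ k) (hbV : Real.log b ≤ V) (hcV : Real.log c ≤ V)
    (hnV : Real.log n ≤ V') (hkV : Real.log k ≤ V') (hodd : ¬ 2 ∣ b * c)
    (heq : a ^ m + b ^ n = c ^ k ∨ b ^ n + c ^ k = a ^ m ∨ c ^ k + a ^ m = b ^ n) :
    (m.minFac : ℝ) ≤ Lam := by
  have hb2 : ¬ 2 ∣ b := fun h => hodd (Dvd.dvd.mul_right h c)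
  have hc2 : ¬ 2 ∣ c := fun h => hodd (Dvd.dvd.mul_left h b)
  have hbo : ¬ 2 ∣ b ^ n := fun h => hb2 (Nat.prime_two.dvd_of_dvd_pow h)
  have hco : ¬ 2 ∣ c ^ k := fun h => hc2 (Nat.prime_two.dvd_of_dvd_pow h)
  have ham : 2 ∣ a ^ m := by
    rcases heq with h | h | h <;> omega
  have ha2 : 2 ∣ a := Nat.prime_two.dvd_of_dvd_pow ham
  have h2m : (2 : ℤ) ^ m ∣ (a : ℤ) ^ m := pow_dvd_pow_of_dvd (by exact_mod_cast ha2) m
  have hdv : (2 : ℤ) ^ m ∣ (c : ℤ) ^ k - (b : ℤ) ^ n ∨ (2 : ℤ) ^ m ∣ (c : ℤ) ^ k + (b : ℤ) ^ n := by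
    rcases heq with h | h | h
    · left
      have h3 : (a : ℤ) ^ m + (b : ℤ) ^ n = (c : ℤ) ^ k := by exact_mod_cast h
      have h4 : (c : ℤ) ^ k - (b : ℤ) ^ n = (a : ℤ) ^ m := by linarith
      rw [h4]; exact h2m
    · right
      have h3 : (b : ℤ) ^ n + (c : ℤ) ^ k = (a : ℤ) ^ m := by exact_mod_cast h
      have h4 : (c : ℤ) ^ k + (b : ℤ) ^ n = (a : ℤ) ^ m := by linarith
      rw [h4]; exact h2m
    · left
      have h3 : (c : ℤ) ^ k + (a : ℤ) ^ m = (b : ℤ) ^ n := by exact_mod_cast h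
      have h4 : (c : ℤ) ^ k - (b : ℤ) ^ n = -(a : ℤ) ^ m := by linarith
      rw [h4]; exact (dvd_neg).mpr h2m
  have h := htw b c n k m V V' hb hc hb2 hc2 hbc hn hk hV1 hbV hcV hV1' hnV hkV hdv
  have h3 : CT * V ^ 2 * (1 + V') ^ 2 ≤ CT * W ^ 2 * (1 + W) ^ 2 := by gcongr
  have h4 : (m.minFac : ℝ) ≤ m := by exact_mod_cast Nat.minFac_le (by omega)
  linarith

/-- numerical facts for the last step -/
structure NumF (δ B C CT CW κ : ℝ) (u : ℝ) : Prop where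
  u1 : 1 ≤ u
  uκ : 2 / κ ≤ u
  P1 : 1 ≤ u ^ (1 - δ)
  hB : Real.exp (B * u ^ (1 - δ)) ≤ Real.exp (u ^ (1 - δ / 2))
  hi : ∀ l : ℕ, Real.exp (u ^ (1 - 3 * δ / 8)) < l →
    C * (Real.exp (u ^ (1 - δ / 2))) ^ 2 * (1 + Real.log l) ^ 2 < l
  h2 : CT * (Real.exp (u ^ (1 - δ / 2))) ^ 2 * (1 + Real.exp (u ^ (1 - δ / 2))) ^ 2
    ≤ Real.exp (u ^ (1 - 3 * δ / 8))
  L2 : 2 ≤ Real.exp (u ^ (1 - 3 * δ / 8))
  LQ : u ^ (1 - 3 * δ / 8) ≤ u ^ (1 - δ / 4)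
  PQ : u ^ (1 - δ) ≤ u ^ (1 - δ / 4)
  WQ : 2 * Real.exp (u ^ (1 - δ / 2)) ≤ Real.exp (u ^ (1 - δ / 4))
  hW : 2 * (CW * (Real.exp (u ^ (1 - 3 * δ / 8)) * Real.exp (2 * u ^ (1 - δ))) ^ CW)
    ≤ Real.exp (u ^ (1 - δ / 4))

lemma numericF (δ B C CT CW κ : ℝ) (hδ0 : 0 < δ) (hδ1 : δ < 1) (hCW : 1 ≤ CW) :
    ∃ u0 : ℝ, ∀ u : ℝ, u0 ≤ u → NumF δ B C CT CW κ u := by
  obtain ⟨u1, hu1⟩ := numericX (δ / 2) C CT 1 1 1 (by linarith) (by linarith) one_pos one_pos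
  have e1 := ev_pow (|B| + 2) (show (1 - δ : ℝ) < 1 - δ / 2 by linarith)
  have e2 := ev_pow (|B| + 2) (show (1 - δ / 2 : ℝ) < 1 - 3 * δ / 8 by linarith)
  have e3 := ev_pow (6 * CW) (show (1 - 3 * δ / 8 : ℝ) < 1 - δ / 4 by linarith)
  obtain ⟨u2, hu2⟩ := eventually_atTop.mp (e1.and (e2.and e3))
  refine ⟨max (max 1 (2 / κ)) (max u1 u2), fun u hu => ?_⟩
  have hu1' : 1 ≤ u := (le_max_left _ _).trans ((le_max_left _ _).trans hu)
  have huκ : 2 / κ ≤ u := (le_max_right _ _).trans ((le_max_left _ _).trans hu)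
  have num := hu1 u ((le_max_left _ _).trans ((le_max_right _ _).trans hu))
  obtain ⟨f1, f2, f3⟩ := hu2 u ((le_max_right _ _).trans ((le_max_right _ _).trans hu))
  have E1 : (1 : ℝ) - δ / 2 = 1 - (δ / 2) := rfl
  have E2 : (1 : ℝ) - 3 * (δ / 2) / 4 = 1 - 3 * δ / 8 := by ring
  rw [E2] at num
  have hP : 1 ≤ u ^ (1 - δ) := Real.one_le_rpow hu1' (by linarith)
  have hM : 1 ≤ u ^ (1 - δ / 2) := Real.one_le_rpow hu1' (by linarith)
  have hL : 1 ≤ u ^ (1 - 3 * δ / 8) := Real.one_le_rpow hu1' (by linarith)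
  have hB0 := abs_nonneg B
  have hBle := le_abs_self B
  have g2 : 2 * u ^ (1 - δ / 2) ≤ u ^ (1 - 3 * δ / 8) := by nlinarith
  have g1 : 2 * u ^ (1 - δ) ≤ u ^ (1 - δ / 2) := by nlinarith
  have g3 : 6 * u ^ (1 - 3 * δ / 8) ≤ u ^ (1 - δ / 4) := by nlinarith
  have hexp1 : (2 : ℝ) ≤ Real.exp 1 := by
    have := Real.add_one_le_exp (1 : ℝ); linarith
  constructor
  · exact hu1'
  · exact huκ
  · exact hP
  · apply Real.exp_le_exp.2
    nlinarith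
  · exact num.hi
  · exact num.h2
  · exact num.L2
  · linarith
  · linarith
  · calc 2 * Real.exp (u ^ (1 - δ / 2)) ≤ Real.exp 1 * Real.exp (u ^ (1 - δ / 2)) := by gcongr
      _ = Real.exp (1 + u ^ (1 - δ / 2)) := by rw [← Real.exp_add]
      _ ≤ _ := Real.exp_le_exp.2 (by linarith)
  · have h1 : 2 * CW ≤ Real.exp (2 * CW) := by
      have := Real.add_one_le_exp (2 * CW); linarith
    calc 2 * (CW * (Real.exp (u ^ (1 - 3 * δ / 8)) * Real.exp (2 * u ^ (1 - δ))) ^ CW)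
        = (2 * CW) * Real.exp ((u ^ (1 - 3 * δ / 8) + 2 * u ^ (1 - δ)) * CW) := by
          rw [← Real.exp_add, ← Real.exp_mul]; ring
      _ ≤ Real.exp (2 * CW) * Real.exp ((u ^ (1 - 3 * δ / 8) + 2 * u ^ (1 - δ)) * CW) := by
          gcongr
      _ = Real.exp (2 * CW + (u ^ (1 - 3 * δ / 8) + 2 * u ^ (1 - δ)) * CW) := by
          rw [← Real.exp_add]
      _ ≤ _ := by
          apply Real.exp_le_exp.2
          nlinarith

/-- the exceptional set with a general condition on the exponents -/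
def ExcC (N b g r : ℕ) (cond : ℕ → ℕ → ℕ → ℕ → Prop) : Set ℕ :=
  {x : ℕ | 1 ≤ x ∧ x ≤ N ∧ Nat.Coprime b (g * x + r) ∧ ∃ a m n k : ℕ, 1 ≤ a ∧ 2 ≤ m ∧
        1 ≤ n ∧ 1 ≤ k ∧ cond (g * x + r) m n k ∧
        (a ^ m + b ^ n = (g * x + r) ^ k ∨ b ^ n + (g * x + r) ^ k = a ^ m ∨
          (g * x + r) ^ k + a ^ m = b ^ n)}

/-- from the core to a general condition -/
lemma from_core {N b g r : ℕ} {κ E₀ F₀ : ℝ} (hκ : 0 < κ) (hκ1 : κ ≤ 1) (hN : 0 < N)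
    (hNκ : 2 / κ ≤ Real.log N) (hg : 1 ≤ g) (hE : Real.log 2 ≤ E₀)
    (cond : ℕ → ℕ → ℕ → ℕ → Prop)
    (h : ((ExcX N b g r E₀ F₀).ncard : ℝ) ≤ (N : ℝ) ^ (1 - κ))
    (hcond : ∀ x : ℕ, 1 ≤ x → x ≤ N → 2 ≤ g * x + r → Nat.Coprime b (g * x + r) → ∀ a m n k : ℕ,
      1 ≤ a → 2 ≤ m → 1 ≤ n → 1 ≤ k → cond (g * x + r) m n k →
      (a ^ m + b ^ n = (g * x + r) ^ k ∨ b ^ n + (g * x + r) ^ k = a ^ m ∨
          (g * x + r) ^ k + a ^ m = b ^ n) →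
      ∃ a' m' l : ℕ, 1 ≤ a' ∧ 2 ≤ m' ∧ a' ^ m' = a ^ m ∧ l.Prime ∧ l ∣ m' ∧ Real.log l ≤ E₀ ∧
        (k.primeFactors.card : ℝ) ≤ F₀) :
    ((ExcC N b g r cond).ncard : ℝ) ≤ (N : ℝ) ^ (1 - κ / 2) := by
  have hfin : (ExcX N b g r E₀ F₀).Finite := by
    apply (Finset.finite_toSet (Icc 1 N)).subset
    intro x hx
    rw [mem_coe, mem_Icc]
    exact ⟨hx.1, hx.2.1⟩
  have hsub : ExcC N b g r cond ⊆ {1} ∪ ExcX N b g r E₀ F₀ := by
    intro x hx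
    obtain ⟨hx1, hxN, hbc, a, m, n, k, ha, hm, hn, hk, hc, heq⟩ := hx
    by_cases hc1 : g * x + r = 1
    · left
      have h2 : x ≤ g * x := Nat.le_mul_of_pos_left x hg
      rw [Set.mem_singleton_iff]
      omega
    right
    have hc2' : 2 ≤ g * x + r := by
      have h2 : x ≤ g * x := Nat.le_mul_of_pos_left x hg
      omega
    obtain ⟨a', m', l, ha', hm', ham, hl, hlm, hlE, hkF⟩ :=
      hcond x hx1 hxN hc2' hbc a m n k ha hm hn hk hc heq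
    refine ⟨hx1, hxN, hbc, a', m', n, k, ha', hm', hn, hk, ⟨l, hl, hlm, hlE⟩, hkF, ?_⟩
    rw [ham]
    exact heq
  have h1 : (ExcC N b g r cond).ncard ≤ 1 + (ExcX N b g r E₀ F₀).ncard := by
    refine (Set.ncard_le_ncard hsub ((Set.finite_singleton 1).union hfin)).trans ?_
    refine (Set.ncard_union_le _ _).trans ?_
    rw [Set.ncard_singleton]
  have h2 : ((ExcC N b g r cond).ncard : ℝ) ≤ 1 + ((ExcX N b g r E₀ F₀).ncard : ℝ) := by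
    exact_mod_cast h1
  have hNr : (0 : ℝ) < N := by exact_mod_cast hN
  have hN1 : (1 : ℝ) ≤ N := by exact_mod_cast hN
  have h3 : (1 : ℝ) ≤ (N : ℝ) ^ (1 - κ) := Real.one_le_rpow hN1 (by linarith)
  have h4 : (2 : ℝ) ≤ (N : ℝ) ^ (κ / 2) := by
    rw [Real.rpow_def_of_pos hNr]
    have h5 : 1 ≤ Real.log N * (κ / 2) := by
      rw [div_le_iff₀ hκ] at hNκ
      linarith
    have := Real.add_one_le_exp (Real.log N * (κ / 2))
    linarith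
  have h5 : (N : ℝ) ^ (1 - κ / 2) = (N : ℝ) ^ (1 - κ) * (N : ℝ) ^ (κ / 2) := by
    rw [← Real.rpow_add hNr]; congr 1; ring
  rw [h5]
  nlinarith

/-- the sizes -/
lemma sizes {ε δ κ u0 : ℝ} (hε0 : 0 < ε) (hδ : δ = ε / (1 + ε)) {X N : ℕ}
    (hX : Real.exp (Real.exp (max 1 u0)) ≤ X)
    (hN : Real.exp (Real.log (Real.log X) ^ (1 + ε)) ≤ N) :
    0 < X ∧ 0 < N ∧ 1 ≤ Real.log X ∧ 1 ≤ Real.log (Real.log X) ∧ u0 ≤ Real.log N ∧
      Real.log X ≤ Real.exp ((Real.log N) ^ (1 - δ)) := by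
  have hε1 : (0 : ℝ) < 1 + ε := by linarith
  have hδ1 : δ < 1 := by rw [hδ, div_lt_one hε1]; linarith
  have he2 : (1 + ε) * (1 - δ) = 1 := by rw [hδ]; field_simp; ring
  have hX0 : (0 : ℝ) < X := lt_of_lt_of_le (Real.exp_pos _) hX
  have hN0r : (0 : ℝ) < N := lt_of_lt_of_le (Real.exp_pos _) hN
  set V := Real.log X with hV
  have hV1 : Real.exp (max 1 u0) ≤ V := by
    rw [hV, Real.le_log_iff_exp_le hX0]; exact hX
  have hV0 : 0 < V := lt_of_lt_of_le (Real.exp_pos _) hV1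
  have hlV : max 1 u0 ≤ Real.log V := by
    rw [Real.le_log_iff_exp_le hV0]; exact hV1
  have hlV1 : 1 ≤ Real.log V := (le_max_left _ _).trans hlV
  have hlV0 : 0 < Real.log V := by linarith
  have hu1' : Real.log V ^ (1 + ε) ≤ Real.log N := by
    rw [Real.le_log_iff_exp_le hN0r]; exact hN
  refine ⟨by exact_mod_cast hX0, by exact_mod_cast hN0r, ?_, hlV1, ?_, ?_⟩
  · have := Real.add_one_le_exp (max 1 u0)
    have := le_max_left 1 u0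
    linarith
  · refine ((le_max_right _ _).trans hlV).trans (le_trans ?_ hu1')
    calc Real.log V = Real.log V ^ (1 : ℝ) := (Real.rpow_one _).symm
      _ ≤ Real.log V ^ (1 + ε) := Real.rpow_le_rpow_of_exponent_le hlV1 (by linarith)
  · rw [← Real.log_le_iff_le_exp hV0]
    calc Real.log V = (Real.log V ^ (1 + ε)) ^ (1 - δ) := by
          rw [← Real.rpow_mul hlV0.le, he2, Real.rpow_one]
      _ ≤ (Real.log N) ^ (1 - δ) :=
          Real.rpow_le_rpow (Real.rpow_nonneg hlV0.le _) hu1' (by linarith)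

/-- **Theorem X**, in its strong form -/
def Stmt_XA : Prop :=
  ∀ ε : ℝ, 0 < ε → ∃ κ : ℝ, 0 < κ ∧ ∀ A : ℝ, ∃ X₀ : ℝ, ∀ X N b g r : ℕ, X₀ ≤ X →
    Real.exp (Real.log (Real.log X) ^ (1 + ε)) ≤ N → 2 ≤ b → b ≤ X → 1 ≤ g → g * N + r ≤ X →
    ({x : ℕ | 1 ≤ x ∧ x ≤ N ∧ Nat.Coprime b (g * x + r) ∧ ∃ a m n k : ℕ, 1 ≤ a ∧ 2 ≤ m ∧
        1 ≤ n ∧ 1 ≤ k ∧
        ((Real.log n ≤ (Real.log X) ^ A ∧ Real.log k ≤ (Real.log X) ^ A) ∨
          ((∃ p : ℕ, p.Prime ∧ Real.log p ≤ (Real.log N) ^ (1 - ε) ∧ p ∣ m * b * (g * x + r)) ∧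
            (k.primeFactors.card : ℝ) ≤ Real.exp ((Real.log N) ^ (1 - ε)))) ∧
        (a ^ m + b ^ n = (g * x + r) ^ k ∨ b ^ n + (g * x + r) ^ k = a ^ m ∨
          (g * x + r) ^ k + a ^ m = b ^ n)}.ncard : ℝ) ≤ (N : ℝ) ^ (1 - κ)

theorem stmt_XA (hX0 : Stmt_X0) (hSt : MP_2738db_nt_U.Stmt_Step) (hTw : Stmt_Twa) : Stmt_XA := by
  intro ε hε0
  set δ : ℝ := ε / (1 + ε) with hδ
  have hε1 : (0 : ℝ) < 1 + ε := by linarith
  have hδ0 : 0 < δ := by positivity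
  have hδ1 : δ < 1 := by rw [hδ, div_lt_one hε1]; linarith
  have hδε : δ ≤ ε := by
    rw [hδ, div_le_iff₀ hε1]; nlinarith
  obtain ⟨C1, hC1, hst⟩ := hSt
  obtain ⟨CT, hCT, htw⟩ := hTw
  obtain ⟨κ₀, X₁, hκ₀, hcore⟩ := hX0 (δ / 4) (by linarith)
  set κ := min κ₀ 1 with hκd
  have hκ : 0 < κ := lt_min hκ₀ one_pos
  have hκ1 : κ ≤ 1 := min_le_right _ _
  refine ⟨κ / 2, by positivity, fun A => ?_⟩
  obtain ⟨u0, hu0⟩ := numericF δ (|A| + 2) C1 CT 1 κ hδ0 hδ1 le_rfl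
  refine ⟨max X₁ (Real.exp (Real.exp (max 1 u0))), ?_⟩
  intro X N b g r hX hN hb2 hbX hg hgN
  obtain ⟨hXp, hNp, hV1, hlV1, huu, hVP⟩ := sizes hε0 hδ ((le_max_right _ _).trans hX) hN
    (κ := κ)
  have num := hu0 _ huu
  set u := Real.log N with hu
  set V := Real.log X with hV
  have hu1 := num.u1
  have hP1 := num.P1
  have hNr : (0 : ℝ) < N := by exact_mod_cast hNp
  have hN1 : (1 : ℝ) ≤ N := by exact_mod_cast hNp
  have hc := hcore X N b g r ((le_max_left _ _).trans hX) (by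
    refine le_trans ?_ hN
    apply Real.exp_le_exp.2
    exact Real.rpow_le_rpow_of_exponent_le hlV1 (by linarith)) hb2 hbX hg hgN
  have hc' : ((ExcX N b g r (u ^ (1 - δ / 4)) (Real.exp (u ^ (1 - δ / 4)))).ncard : ℝ)
      ≤ (N : ℝ) ^ (1 - κ) := by
    refine hc.trans ?_
    apply Real.rpow_le_rpow_of_exponent_le hN1
    have := min_le_left κ₀ 1
    linarith
  have hlog : ∀ z : ℕ, 1 ≤ z → z ≤ X → Real.log z ≤ V := by
    intro z h1 h2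
    exact Real.log_le_log (by exact_mod_cast h1) (by exact_mod_cast h2)
  set V' := max 1 (V ^ A) with hV'
  have hVA : V ^ A ≤ Real.exp ((|A|) * u ^ (1 - δ)) := by
    calc V ^ A ≤ V ^ |A| := Real.rpow_le_rpow_of_exponent_le hV1 (le_abs_self A)
      _ ≤ (Real.exp (u ^ (1 - δ))) ^ |A| := Real.rpow_le_rpow (by linarith) hVP (abs_nonneg A)
      _ = _ := by rw [← Real.exp_mul, mul_comm]
  have hA0 := abs_nonneg A
  have hPW : ∀ z : ℝ, z ≤ |A| + 2 → Real.exp (z * u ^ (1 - δ)) ≤ Real.exp (u ^ (1 - δ / 2)) := by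
    intro z hz
    refine le_trans (Real.exp_le_exp.2 ?_) num.hB
    exact mul_le_mul_of_nonneg_right hz (by linarith)
  have hVW' : V' ≤ Real.exp (u ^ (1 - δ / 2)) := by
    rw [hV']
    apply max_le
    · exact Real.one_le_exp (Real.rpow_nonneg (by linarith) _)
    · exact hVA.trans (hPW _ (by linarith))
  have hVW : V ≤ Real.exp (u ^ (1 - δ / 2)) := by
    refine hVP.trans ?_
    have := hPW 1 (by linarith)
    rwa [one_mul] at this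
  have hwV : Real.exp (u ^ (1 - δ)) * V ≤ Real.exp (u ^ (1 - δ / 2)) := by
    calc Real.exp (u ^ (1 - δ)) * V ≤ Real.exp (u ^ (1 - δ)) * Real.exp (u ^ (1 - δ)) := by gcongr
      _ = Real.exp (2 * u ^ (1 - δ)) := by rw [← Real.exp_add]; congr 1; ring
      _ ≤ _ := hPW 2 (by linarith)
  have hw2 : 2 ≤ Real.exp (u ^ (1 - δ)) := by
    have := Real.add_one_le_exp (u ^ (1 - δ))
    linarith
  have hQ1 : 1 ≤ u ^ (1 - δ / 4) := by linarith [num.PQ]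
  have hlog2 : Real.log 2 ≤ u ^ (1 - δ / 4) := by
    have := Real.log_two_lt_d9
    linarith
  have hεP : u ^ (1 - ε) ≤ u ^ (1 - δ) := Real.rpow_le_rpow_of_exponent_le hu1 (by linarith)
  exact from_core hκ hκ1 hNp num.uκ hg hlog2 (fun c m n k =>
    ((Real.log n ≤ V ^ A ∧ Real.log k ≤ V ^ A) ∨
          ((∃ p : ℕ, p.Prime ∧ Real.log p ≤ u ^ (1 - ε) ∧ p ∣ m * b * c) ∧
            (k.primeFactors.card : ℝ) ≤ Real.exp (u ^ (1 - ε))))) hc' (by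
    intro x hx1 hxN hc2 hbc a m n k ha hm hn hk hcond heq
    set c := g * x + r with hcd
    have hcX : c ≤ X := by
      have : g * x ≤ g * N := Nat.mul_le_mul_left g hxN
      omega
    have hbV := hlog b (by omega) hbX
    have hcV := hlog c (by omega) hcX
    have hkF : (k.primeFactors.card : ℝ) ≤ Real.exp (u ^ (1 - δ / 4)) := by
      rcases hcond with ⟨_, h1⟩ | ⟨_, h1⟩
      · have h2 := omega_le (show 0 < k from hk)
        have h3 := num.WQ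
        have h4 : V ^ A ≤ V' := le_max_right _ _
        linarith
      · refine h1.trans (Real.exp_le_exp.2 (hεP.trans num.PQ))
    by_cases ha1 : a = 1
    · exact ⟨1, 2, 2, le_rfl, le_rfl, by rw [ha1]; simp, Nat.prime_two, dvd_rfl,
        by exact_mod_cast hlog2, hkF⟩
    have ha2 : 2 ≤ a := by omega
    have hlp := Nat.minFac_prime (show m ≠ 1 by omega)
    have hfin : (m.minFac : ℝ) ≤ Real.exp (u ^ (1 - 3 * δ / 8)) →
        Real.log m.minFac ≤ u ^ (1 - δ / 4) := by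
      intro h
      refine le_trans ?_ num.LQ
      rw [Real.log_le_iff_le_exp (by exact_mod_cast hlp.pos)]
      exact h
    have hst' : ∀ p : ℕ, p.Prime → p ∣ b * c → (p : ℝ) ≤ Real.exp (u ^ (1 - δ)) →
        (m.minFac : ℝ) ≤ Real.exp (u ^ (1 - 3 * δ / 8)) := fun p hp hpd hpw =>
      step_small hst hC1 hV1 hw2 hwV num.hi ha2 hb2 hc2 hbc hm hn hk hbV hcV hp hpd hpw heq
    rcases hcond with ⟨h1, h2⟩ | ⟨⟨p, hp, hpl, hpd⟩, _⟩
    · refine ⟨a, m, m.minFac, ha, hm, rfl, hlp, Nat.minFac_dvd m, hfin ?_, hkF⟩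
      by_cases hodd : 2 ∣ b * c
      · exact hst' 2 Nat.prime_two hodd (by exact_mod_cast hw2)
      · exact two_small htw hCT hV1 hVW (le_max_left _ _) hVW' num.h2 hb2 hc2 hbc hm hn hk hbV hcV
          (h1.trans (le_max_right _ _)) (h2.trans (le_max_right _ _)) hodd heq
    · rw [mul_assoc] at hpd
      rcases (Nat.Prime.dvd_mul hp).1 hpd with h3 | h3
      · exact ⟨a, m, p, ha, hm, rfl, hp, h3, hpl.trans (hεP.trans num.PQ), hkF⟩
      · refine ⟨a, m, m.minFac, ha, hm, rfl, hlp, Nat.minFac_dvd m, hfin (hst' p hp h3 ?_), hkF⟩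
        rw [← Real.log_le_iff_le_exp (by exact_mod_cast hp.pos)]
        exact hpl.trans hεP)

end Pool.Agent.Work.MP_2738db_nt_X.helper40
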