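import Pool.Agent.Work.MP_2738db_nt_X.Interface
import Pool.Agent.Work.MP_2738db_nt_U_helper40.Num

set_option autoImplicit false

namespace Pool.Agent.Work.MP_2738db_nt_X.helper40

open Finset Filter
open Pool.Agent.Work.MP_2738db_nt_U.helper40 (ev_pow ev_log ev_exp)

/-- all numerical facts -/
structure NumX (e C CT T γ γ1 : ℝ) (u W t y Lam : ℝ) : Prop where
  u1 : 3 ≤ u
  t4 : 4 ≤ t
  tT : T ≤ t
  y3 : 3 ≤ y
  tly : t ≤ y
  ty : t ^ (1 + e / 4) ≤ y
  yA : y ≤ t ^ 3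
  hk : 2 * W ≤ Real.exp (t ^ (1 - e / 4))
  LA : Real.log Lam ≤ t ^ (1 - e / 4)
  hd : 2 * Lam * Real.exp (t / 40) ≤ Real.exp (t / 2)
  hg : 3200 * Lam ≤ Real.exp (t / 8)
  hb : 8 * W ≤ Real.exp (γ * t)
  hr : 72 * u ^ 2 ≤ Real.exp (γ * t / 2)
  ht : 16 * t ≤ u
  hi : ∀ l : ℕ, Lam < l → C * W ^ 2 * (1 + Real.log l) ^ 2 < l
  h2 : CT * W ^ 2 * (1 + W) ^ 2 ≤ Lam
  L2 : 2 ≤ Lam
  hS : 2 + (Real.log Lam + (t + 8 * y)) ≤ γ1 / 4 * u

theorem numericX (e C CT T γ γ1 : ℝ) (he0 : 0 < e) (he1 : e < 1) (hγ : 0 < γ)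
    (hγ1 : 0 < γ1) :
    ∃ u0 : ℝ, ∀ u : ℝ, u0 ≤ u →
      NumX e C CT T γ γ1 u (Real.exp (u ^ (1 - e))) (u ^ (1 - e / 2)) (u ^ (1 - e / 4))
        (Real.exp (u ^ (1 - 3 * e / 4))) := by
  have hs : 0 < 1 - e / 2 := by linarith
  -- the threshold for `l`
  have hl : ∀ᶠ x : ℝ in atTop, |C| * (1 + Real.log x) ^ 2 ≤ x ^ (1 / 2 : ℝ) := by
    have h1 := ev_log (2 * (|C| + 1)) (show (0 : ℝ) < 1 / 4 by norm_num)
    filter_upwards [h1, eventually_ge_atTop (Real.exp 1)] with x hx hx1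
    have hx0 : 0 < x := lt_of_lt_of_le (Real.exp_pos _) hx1
    have hlx : 1 ≤ Real.log x := by rwa [Real.le_log_iff_exp_le hx0]
    have h2 : (|C| + 1) * (1 + Real.log x) ≤ x ^ (1 / 4 : ℝ) := by
      refine le_trans ?_ hx
      nlinarith [abs_nonneg C]
    have h3 : ((|C| + 1) * (1 + Real.log x)) ^ 2 ≤ x ^ (1 / 2 : ℝ) := by
      calc ((|C| + 1) * (1 + Real.log x)) ^ 2 ≤ (x ^ (1 / 4 : ℝ)) ^ 2 :=
            pow_le_pow_left₀ (by positivity) h2 2
        _ = _ := by
            rw [← Real.rpow_natCast, ← Real.rpow_mul hx0.le]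
            congr 1; norm_num
    have h5 : |C| * (1 + Real.log x) ^ 2 ≤ ((|C| + 1) * (1 + Real.log x)) ^ 2 := by
      rw [mul_pow]
      apply mul_le_mul_of_nonneg_right _ (by positivity)
      nlinarith [abs_nonneg C]
    linarith
  obtain ⟨x0, hx0⟩ := eventually_atTop.mp hl
  have e1 := (tendsto_rpow_atTop hs).eventually_ge_atTop (max 4 T)
  have e2 := ev_pow 3 (show (0 : ℝ) < 1 - e / 4 by linarith)
  have e3 := ev_pow (max 9 (max x0 (8 * |CT|))) (show (0 : ℝ) < 1 - e by linarith)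
  have e4 := ev_pow 8 (show (1 - e : ℝ) < 1 - 3 * e / 4 by linarith)
  have e5 := ev_pow (max 100 (1 / γ)) (show (1 - 3 * e / 4 : ℝ) < 1 - e / 2 by linarith)
  have e8 := ev_exp 2 72 hs (show (0 : ℝ) < γ / 2 by positivity)
  have e9 := ev_pow (max 16 (16 / γ1)) (show 1 - e / 2 < 1 by linarith)
  have e10 := ev_pow (16 / γ1) (show 1 - 3 * e / 4 < 1 by linarith)
  have e11 := ev_pow (128 / γ1) (show 1 - e / 4 < 1 by linarith)
  have e13 := eventually_ge_atTop (max 3 (32 / γ1))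
  obtain ⟨u0, hu0⟩ := eventually_atTop.mp (e1.and (e2.and (e3.and (e4.and (e5.and (e8.and
    (e9.and (e10.and (e11.and e13)))))))))
  refine ⟨u0, fun u hu => ?_⟩
  obtain ⟨f1, f2, f3, f4, f5, f8, f9, f10, f11, f13⟩ := hu0 u hu
  have hu3 : 3 ≤ u := (le_max_left _ _).trans f13
  have hu0' : 0 < u := by linarith
  have hu1 : 1 ≤ u := by linarith
  have hux1 : 32 / γ1 ≤ u := (le_max_right _ _).trans f13
  rw [Real.rpow_one] at f9 f10 f11
  rw [Real.rpow_zero, mul_one] at f2 f3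
  set a := u ^ (1 - e) with ha
  set L := u ^ (1 - 3 * e / 4) with hL
  set t := u ^ (1 - e / 2) with ht
  set y := u ^ (1 - e / 4) with hy
  have ha9 : 9 ≤ a := (le_max_left _ _).trans f3
  have hax : x0 ≤ a := (le_max_left _ _).trans ((le_max_right _ _).trans f3)
  have haC : 8 * |CT| ≤ a := (le_max_right _ _).trans ((le_max_right _ _).trans f3)
  have hL0 : 0 < L := by linarith
  have ht100 : 100 * L ≤ t := (mul_le_mul_of_nonneg_right (le_max_left _ _) hL0.le).trans f5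
  have ht0 : 0 < t := by linarith
  have htγ : L ≤ γ * t := by
    have h1 : 1 / γ * L ≤ t := (mul_le_mul_of_nonneg_right (le_max_right _ _) hL0.le).trans f5
    have h2 := mul_le_mul_of_nonneg_left h1 hγ.le
    have h3 : γ * (1 / γ * L) = L := by field_simp
    linarith
  have hLt : L ≤ t ^ (1 - e / 4) := by
    rw [hL, ht, ← Real.rpow_mul hu0'.le]
    apply Real.rpow_le_rpow_of_exponent_le hu1
    nlinarith [sq_nonneg e]
  have hexp1 : (2 : ℝ) ≤ Real.exp 1 := by
    have := Real.add_one_le_exp (1 : ℝ); linarith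
  have hE3 : (8 : ℝ) ≤ Real.exp 3 := by
    have : Real.exp 3 = Real.exp 1 ^ 3 := by rw [← Real.exp_nat_mul]; norm_num
    rw [this]
    calc (8 : ℝ) = 2 ^ 3 := by norm_num
      _ ≤ Real.exp 1 ^ 3 := by gcongr
  have hE9 : (3200 : ℝ) ≤ Real.exp 9 := by
    have h1 : Real.exp 9 = Real.exp 1 ^ 9 := by rw [← Real.exp_nat_mul]; norm_num
    have h2 : (2.7 : ℝ) ≤ Real.exp 1 := by have := Real.exp_one_gt_d9; linarith
    rw [h1]
    calc (3200 : ℝ) ≤ 2.7 ^ 9 := by norm_num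
      _ ≤ Real.exp 1 ^ 9 := by gcongr
  have hup : ∀ z s : ℝ, z ≤ Real.exp s → s ≤ L → z * Real.exp L ≤ Real.exp (2 * L) := by
    intro z s h1 h2
    calc z * Real.exp L ≤ Real.exp L * Real.exp L :=
          mul_le_mul_of_nonneg_right (h1.trans (Real.exp_le_exp.2 h2)) (Real.exp_pos _).le
      _ = Real.exp (2 * L) := by rw [← Real.exp_add]; congr 1; ring
  have hua : ∀ z s : ℝ, z ≤ Real.exp s → s ≤ a → z * Real.exp a ≤ Real.exp L := by
    intro z s h1 h2
    calc z * Real.exp a ≤ Real.exp a * Real.exp a :=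
          mul_le_mul_of_nonneg_right (h1.trans (Real.exp_le_exp.2 h2)) (Real.exp_pos _).le
      _ = Real.exp (2 * a) := by rw [← Real.exp_add]; congr 1; ring
      _ ≤ Real.exp L := Real.exp_le_exp.2 (by linarith)
  constructor
  · exact hu3
  · exact (le_max_left _ _).trans f1
  · exact (le_max_right _ _).trans f1
  · exact f2
  · apply Real.rpow_le_rpow_of_exponent_le hu1
    linarith
  · rw [ht, ← Real.rpow_mul hu0'.le]
    apply Real.rpow_le_rpow_of_exponent_le hu1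
    nlinarith [sq_nonneg e]
  · rw [ht, ← Real.rpow_natCast, ← Real.rpow_mul hu0'.le]
    apply Real.rpow_le_rpow_of_exponent_le hu1
    push_cast
    linarith
  · exact (hua 2 1 hexp1 (by linarith)).trans (Real.exp_le_exp.2 hLt)
  · rw [Real.log_exp]; exact hLt
  · calc 2 * Real.exp L * Real.exp (t / 40) ≤ Real.exp (2 * L) * Real.exp (t / 40) :=
          mul_le_mul_of_nonneg_right (hup 2 1 hexp1 (by linarith)) (Real.exp_pos _).le
      _ = Real.exp (2 * L + t / 40) := by rw [← Real.exp_add]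
      _ ≤ Real.exp (t / 2) := Real.exp_le_exp.2 (by linarith)
  · exact (hup 3200 9 hE9 (by linarith)).trans (Real.exp_le_exp.2 (by linarith))
  · exact (hua 8 3 hE3 (by linarith)).trans (Real.exp_le_exp.2 htγ)
  · have h1 : (72 : ℝ) * u ^ (2 : ℝ) ≤ Real.exp (γ / 2 * t) := f8
    rw [show (u : ℝ) ^ 2 = u ^ (2 : ℝ) by rw [← Real.rpow_natCast]; norm_num]
    refine h1.trans (le_of_eq ?_)
    congr 1; ring
  · exact (mul_le_mul_of_nonneg_right (le_max_left _ _) ht0.le).trans f9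
  · intro l hl
    have hl0 : (0 : ℝ) < l := lt_trans (Real.exp_pos _) hl
    have hLl : L ≤ l := by
      have := Real.add_one_le_exp L
      linarith
    have h1 := hx0 l (by linarith)
    have h2 : (Real.exp a) ^ 2 ≤ (l : ℝ) ^ (1 / 4 : ℝ) := by
      calc (Real.exp a) ^ 2 = Real.exp (2 * a) := by rw [← Real.exp_nat_mul]; norm_num
        _ ≤ Real.exp (L * (1 / 4)) := Real.exp_le_exp.2 (by linarith)
        _ = (Real.exp L) ^ (1 / 4 : ℝ) := by rw [Real.exp_mul]
        _ ≤ (l : ℝ) ^ (1 / 4 : ℝ) := Real.rpow_le_rpow (Real.exp_pos _).le hl.le (by norm_num)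
    have hl1 : (1 : ℝ) < l := by linarith
    calc C * (Real.exp a) ^ 2 * (1 + Real.log l) ^ 2
        ≤ |C| * (Real.exp a) ^ 2 * (1 + Real.log l) ^ 2 := by
          gcongr
          exact le_abs_self C
      _ = (Real.exp a) ^ 2 * (|C| * (1 + Real.log l) ^ 2) := by ring
      _ ≤ (l : ℝ) ^ (1 / 4 : ℝ) * (l : ℝ) ^ (1 / 2 : ℝ) :=
          mul_le_mul h2 h1 (by positivity) (by positivity)
      _ = (l : ℝ) ^ (3 / 4 : ℝ) := by rw [← Real.rpow_add hl0]; norm_num
      _ < (l : ℝ) ^ (1 : ℝ) := Real.rpow_lt_rpow_of_exponent_lt hl1 (by norm_num)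
      _ = l := Real.rpow_one _
  · have hE1 : 1 ≤ Real.exp a := Real.one_le_exp (by linarith)
    have h1 : CT * 4 ≤ Real.exp a := by
      have := Real.add_one_le_exp a
      have := le_abs_self CT
      have := abs_nonneg CT
      linarith
    calc CT * (Real.exp a) ^ 2 * (1 + Real.exp a) ^ 2
        ≤ |CT| * (Real.exp a) ^ 2 * (Real.exp a + Real.exp a) ^ 2 := by
          gcongr
          exact le_abs_self CT
      _ = (4 * |CT|) * ((Real.exp a) ^ 2 * (Real.exp a) ^ 2) := by ring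
      _ ≤ Real.exp a * ((Real.exp a) ^ 2 * (Real.exp a) ^ 2) := by
          apply mul_le_mul_of_nonneg_right _ (by positivity)
          have := Real.add_one_le_exp a
          have := abs_nonneg CT
          linarith
      _ = Real.exp (5 * a) := by
          rw [← Real.exp_nat_mul, ← Real.exp_add, ← Real.exp_add]; congr 1; push_cast; ring
      _ ≤ Real.exp L := Real.exp_le_exp.2 (by linarith)
  · have := Real.add_one_le_exp L
    linarith
  · rw [Real.log_exp]
    have g1 : L ≤ γ1 / 16 * u := by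
      have h1 : γ1 / 16 * (16 / γ1 * L) ≤ γ1 / 16 * u :=
        mul_le_mul_of_nonneg_left f10 (by positivity)
      refine le_trans (le_of_eq ?_) h1
      field_simp
    have g2 : t ≤ γ1 / 16 * u := by
      have h0 : 16 / γ1 * t ≤ u := (mul_le_mul_of_nonneg_right (le_max_right _ _) ht0.le).trans f9
      have h1 : γ1 / 16 * (16 / γ1 * t) ≤ γ1 / 16 * u :=
        mul_le_mul_of_nonneg_left h0 (by positivity)
      refine le_trans (le_of_eq ?_) h1
      field_simp
    have g3 : 8 * y ≤ γ1 / 16 * u := by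
      have h1 : γ1 / 16 * (128 / γ1 * y) ≤ γ1 / 16 * u :=
        mul_le_mul_of_nonneg_left f11 (by positivity)
      refine le_trans (le_of_eq ?_) h1
      field_simp; norm_num
    have g4 : 2 ≤ γ1 / 16 * u := by
      have h1 : γ1 / 16 * (32 / γ1) ≤ γ1 / 16 * u := mul_le_mul_of_nonneg_left hux1 (by positivity)
      refine le_trans (le_of_eq ?_) h1
      field_simp; norm_num
    have g5 : γ1 / 4 * u = γ1 / 16 * u + (γ1 / 16 * u + (γ1 / 16 * u + γ1 / 16 * u)) := by ring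
    rw [g5]
    exact add_le_add g4 (add_le_add g1 (add_le_add g2 g3))

/-- the size of one set of the union bound -/
lemma set_numX {γ γ1 u t : ℝ} (hu3 : 3 ≤ u) (ht4 : 4 ≤ t) (ht : 16 * t ≤ u)
    (hrr : 72 * u ^ 2 ≤ Real.exp (γ * t / 2)) (hγ : 0 < γ) (hγ1 : 0 < γ1) (hg1 : γ1 ≤ γ / 32)
    (hg2 : γ1 ≤ 1 / 2)
    {Qc : ℝ} (hQ : Real.exp (γ * t) / 2 ≤ Qc) {z : ℕ} (hz : (z : ℝ) ≤ Real.exp t) :
    1 ≤ ⌊u / (8 * t)⌋₊ ∧
    Real.exp u * (36 * (⌊u / (8 * t)⌋₊ : ℝ) ^ 2 / Qc) ^ ⌊u / (8 * t)⌋₊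
      + (36 * (z : ℝ) ^ 2) ^ ⌊u / (8 * t)⌋₊ ≤ 2 * Real.exp ((1 - γ1) * u) := by
  have ht0 : 0 < t := by linarith
  have h8 : 0 < 8 * t := by linarith
  have hr1 : 1 ≤ ⌊u / (8 * t)⌋₊ := by
    apply Nat.le_floor
    rw [Nat.cast_one, le_div_iff₀ h8]
    linarith
  refine ⟨hr1, ?_⟩
  set r := ⌊u / (8 * t)⌋₊ with hr
  have hru : (r : ℝ) ≤ u / (8 * t) := Nat.floor_le (by positivity)
  have hrl : u / (8 * t) < r + 1 := Nat.lt_floor_add_one _
  have htr : t * r ≤ u / 8 := by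
    rw [le_div_iff₀ h8] at hru
    linarith
  have htr' : u / 16 ≤ t * r := by
    rw [div_lt_iff₀ h8] at hrl
    nlinarith
  have hru' : (r : ℝ) ≤ u := by
    refine hru.trans ?_
    rw [div_le_iff₀ h8]
    nlinarith
  have hQ0 : 0 < Qc := lt_of_lt_of_le (by positivity) hQ
  have a1 : 36 * (r : ℝ) ^ 2 / Qc ≤ Real.exp (-(γ * t / 2)) := by
    rw [div_le_iff₀ hQ0]
    have h1 : 36 * (r : ℝ) ^ 2 ≤ 36 * u ^ 2 := by gcongr
    have h2 : Real.exp (-(γ * t / 2)) * (Real.exp (γ * t) / 2) ≤ Real.exp (-(γ * t / 2)) * Qc :=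
      mul_le_mul_of_nonneg_left hQ (Real.exp_pos _).le
    have h3 : Real.exp (-(γ * t / 2)) * (Real.exp (γ * t) / 2) = Real.exp (γ * t / 2) / 2 := by
      rw [mul_div_assoc', ← Real.exp_add]; congr 2; ring
    linarith
  have a2 : (36 * (r : ℝ) ^ 2 / Qc) ^ r ≤ Real.exp (-(γ / 32 * u)) := by
    calc (36 * (r : ℝ) ^ 2 / Qc) ^ r ≤ (Real.exp (-(γ * t / 2))) ^ r :=
          pow_le_pow_left₀ (by positivity) a1 r
      _ = Real.exp (-(γ / 2 * (t * r))) := by rw [← Real.exp_nat_mul]; congr 1; ring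
      _ ≤ _ := by
          apply Real.exp_le_exp.mpr
          have := mul_le_mul_of_nonneg_left htr' (show 0 ≤ γ / 2 by positivity)
          linarith
  have a3 : 36 * (z : ℝ) ^ 2 ≤ Real.exp (3 * t) := by
    have h1 : (36 : ℝ) ≤ Real.exp t := by
      have h2 : Real.exp 4 ≤ Real.exp t := Real.exp_le_exp.mpr ht4
      have h3 : Real.exp 4 = Real.exp 1 * Real.exp 1 * (Real.exp 1 * Real.exp 1) := by
        rw [← Real.exp_add, ← Real.exp_add]; norm_num
      have h4 : (2.7 : ℝ) < Real.exp 1 := by have := Real.exp_one_gt_d9; linarith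
      have h5 : (7.2 : ℝ) ≤ Real.exp 1 * Real.exp 1 := by nlinarith
      have h6 : (36 : ℝ) ≤ Real.exp 1 * Real.exp 1 * (Real.exp 1 * Real.exp 1) := by nlinarith
      linarith
    calc 36 * (z : ℝ) ^ 2 ≤ Real.exp t * (Real.exp t) ^ 2 := by
          apply mul_le_mul h1 _ (by positivity) (Real.exp_pos _).le
          exact pow_le_pow_left₀ (by positivity) hz 2
      _ = Real.exp (3 * t) := by rw [← Real.exp_nat_mul, ← Real.exp_add]; congr 1; push_cast; ring
  have a4 : (36 * (z : ℝ) ^ 2) ^ r ≤ Real.exp (3 / 8 * u) := by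
    calc (36 * (z : ℝ) ^ 2) ^ r ≤ (Real.exp (3 * t)) ^ r := pow_le_pow_left₀ (by positivity) a3 r
      _ = Real.exp (3 * (t * r)) := by rw [← Real.exp_nat_mul]; congr 1; ring
      _ ≤ _ := by
          apply Real.exp_le_exp.mpr
          linarith
  have b1 : Real.exp u * (36 * (r : ℝ) ^ 2 / Qc) ^ r ≤ Real.exp ((1 - γ1) * u) := by
    calc Real.exp u * (36 * (r : ℝ) ^ 2 / Qc) ^ r ≤ Real.exp u * Real.exp (-(γ / 32 * u)) :=
          mul_le_mul_of_nonneg_left a2 (Real.exp_pos _).le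
      _ ≤ _ := by
          rw [← Real.exp_add]
          apply Real.exp_le_exp.mpr
          nlinarith
  have b2 : (36 * (z : ℝ) ^ 2) ^ r ≤ Real.exp ((1 - γ1) * u) := by
    refine a4.trans ?_
    apply Real.exp_le_exp.mpr
    nlinarith
  linarith

/-- the final numerical inequality -/
lemma count_numX {e C CT T γ γ1 : ℝ} {u W t y Lam : ℝ} (num : NumX e C CT T γ γ1 u W t y Lam)
    (hγ1 : 0 < γ1) (hg2 : γ1 ≤ 1 / 2) :
    1 + (Lam * (Real.exp t * (Real.exp (t + 2 * y * Real.log 4) *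
      (Real.exp (t + 2 * y * Real.log 4) * 3)))) *
      (2 * Real.exp ((1 - γ1) * u)) ≤ Real.exp ((1 - γ1 / 2) * u) := by
  have hu0 : 0 < u := by linarith [num.u1]
  have ht0 : 0 < t := by linarith [num.t4]
  have hy0 : 0 < y := by linarith [num.y3]
  have hLam0 : 0 < Lam := by linarith [num.L2]
  have hLexp : Lam = Real.exp (Real.log Lam) := (Real.exp_log hLam0).symm
  have hlL : 0 ≤ Real.log Lam := Real.log_nonneg (by linarith [num.L2])
  have hlog4 : Real.log 4 ≤ 14 / 10 := by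
    have : Real.log 4 = 2 * Real.log 2 := by
      rw [show (4 : ℝ) = 2 ^ 2 by norm_num, Real.log_pow]; norm_num
    have := Real.log_two_lt_d9
    linarith
  have h7 : (7 : ℝ) ≤ Real.exp 2 := by
    have h3 : Real.exp 2 = Real.exp 1 * Real.exp 1 := by
      rw [← Real.exp_add]; norm_num
    have h4 : (2.7 : ℝ) < Real.exp 1 := by have := Real.exp_one_gt_d9; linarith
    nlinarith
  have hl4 : 0 ≤ 2 * y * Real.log 4 := mul_nonneg (by linarith) (Real.log_nonneg (by norm_num))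
  have hX4 : t + 2 * y * Real.log 4 ≤ 4 * y := by
    have h1 : 2 * y * Real.log 4 ≤ 2 * y * (14 / 10) :=
      mul_le_mul_of_nonneg_left hlog4 (by linarith)
    have := num.tly
    linarith
  set M := Lam * (Real.exp t * (Real.exp (t + 2 * y * Real.log 4) *
    (Real.exp (t + 2 * y * Real.log 4)))) with hM
  have hM1 : M = Real.exp (Real.log Lam + (t + 2 * (t + 2 * y * Real.log 4))) := by
    rw [hM]
    conv_lhs => rw [hLexp]
    rw [← Real.exp_add, ← Real.exp_add, ← Real.exp_add]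
    congr 1; ring
  have hMge : 1 ≤ M := by
    rw [hM1]
    apply Real.one_le_exp
    linarith
  have hEge : 1 ≤ Real.exp ((1 - γ1) * u) := by
    apply Real.one_le_exp
    apply mul_nonneg (by linarith) hu0.le
  have hMle : M ≤ Real.exp (Real.log Lam + (t + 8 * y)) := by
    rw [hM1]
    apply Real.exp_le_exp.mpr
    linarith
  calc 1 + (Lam * (Real.exp t * (Real.exp (t + 2 * y * Real.log 4) *
      (Real.exp (t + 2 * y * Real.log 4) * 3)))) *
      (2 * Real.exp ((1 - γ1) * u)) = 1 + 6 * (M * Real.exp ((1 - γ1) * u)) := by rw [hM]; ring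
    _ ≤ 7 * (M * Real.exp ((1 - γ1) * u)) := by
        have : 1 ≤ M * Real.exp ((1 - γ1) * u) := by nlinarith
        linarith
    _ ≤ Real.exp 2 * (Real.exp (Real.log Lam + (t + 8 * y)) * Real.exp ((1 - γ1) * u)) := by
        apply mul_le_mul h7 _ (by positivity) (Real.exp_pos _).le
        exact mul_le_mul_of_nonneg_right hMle (Real.exp_pos _).le
    _ = Real.exp ((2 + (Real.log Lam + (t + 8 * y))) + (1 - γ1) * u) := by
        rw [← Real.exp_add, ← Real.exp_add]; congr 1; ring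
    _ ≤ Real.exp ((1 - γ1 / 2) * u) := by
        apply Real.exp_le_exp.mpr
        have h1 := num.hS
        have h2 : 0 ≤ γ1 / 4 * u := by positivity
        have h3 : (1 - γ1 / 2) * u = (γ1 / 4 * u + (1 - γ1) * u) + γ1 / 4 * u := by ring
        rw [h3]
        linarith

end Pool.Agent.Work.MP_2738db_nt_X.helper40
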